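import Pool.Agent.H64.LS.Core
import Pool.Agent.H90.FT.ProdKey

/-!
# All degrees, products
-/

set_option autoImplicit false

open Matrix

namespace Pool.Agent.H64.LS

open Pool.Agent.H64.CC
open Pool.Agent.H64.FT (pj_apply pj_mul_apply mul_pj_apply pj_comm pj_zero_of pj_mul_pj pj_comm0
  mul_pj_eq_zero apply_of_mul_pj pj_mulVec inH_mulVec sum_pj pj_eq_zero ext_pj NS Fixed Stable
  SlopeSurface)

variable {K : Type} [Field K] [CharZero K] {W : Weil K}

/-- the Lefschetz conjecture in the degrees at most `i` makes the Künneth projectors algebraic -/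
theorem pj_of_bdeg (hW : W.Calculus) (hL : Cohomology W) {n : ℕ} {X : W.Var n} :
    ∀ i < W.dim X, (∀ j ≤ i, W.BDeg X j) → W.pj X i ∈ W.cyc X X 0 := by
  intro i
  induction i using Nat.strong_induction_on with
  | _ i ih =>
    intro hi hB
    have hlow : ∀ j < i, W.pj X j ∈ W.cyc X X 0 := fun j hj =>
      ih j hj (by omega) fun k hk => hB k (by omega)
    have hhigh : ∀ j < i, W.pj X (2 * W.dim X - j) ∈ W.cyc X X 0 := fun j hj => by
      exact hL.dual X j (by omega) (hlow j hj)
    obtain ⟨L, hLX⟩ := hL.nonempty X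
    obtain ⟨θ, hθ, hθL⟩ := hB i le_rfl L hLX
    have hθL' : θ * L ^ (W.dim X - i) * W.pj X i = W.pj X i := hθL
    have hLp := pow_cyc hW (hL.mem X L hLX) (W.dim X - i)
    obtain ⟨A, hA⟩ : ∃ A, A = 1 - ∑ j ∈ Finset.range i, W.pj X j := ⟨_, rfl⟩
    obtain ⟨B, hB'⟩ : ∃ B, B = 1 - ∑ j ∈ Finset.range i, W.pj X (2 * W.dim X - j) := ⟨_, rfl⟩
    have hAm : A ∈ W.cyc X X 0 := by
      rw [hA]
      exact Submodule.sub_mem _ (hW.one_mem X)
        (Submodule.sum_mem _ fun j hj => hlow j (Finset.mem_range.1 hj))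
    have hBm : B ∈ W.cyc X X 0 := by
      rw [hB']
      exact Submodule.sub_mem _ (hW.one_mem X)
        (Submodule.sum_mem _ fun j hj => hhigh j (Finset.mem_range.1 hj))
    have h1 : A * θ * B * L ^ (W.dim X - i) ∈ W.cyc X X 0 :=
      comp_cyc hW hLp (comp_cyc hW hBm (comp_cyc hW hθ hAm rfl) rfl) (by omega)
    have hApj : ∀ j, i ≤ j → A * W.pj X j = W.pj X j := by
      intro j hj
      rw [hA, sub_mul, one_mul, Finset.sum_mul, Finset.sum_eq_zero, sub_zero]
      intro k hk
      have := Finset.mem_range.1 hk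
      rw [pj_mul_pj, if_neg (by omega)]
    have hApj0 : ∀ j, j < i → A * W.pj X j = 0 := by
      intro j hj
      rw [hA, sub_mul, one_mul, Finset.sum_mul, Finset.sum_eq_single j]
      · rw [pj_idem, sub_self]
      · intro k _ hk
        rw [pj_mul_pj, if_neg hk]
      · intro h
        exact absurd (Finset.mem_range.2 hj) h
    have hBpj : ∀ j, j + i ≤ 2 * W.dim X → B * W.pj X j = W.pj X j := by
      intro j hj
      rw [hB', sub_mul, one_mul, Finset.sum_mul, Finset.sum_eq_zero, sub_zero]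
      intro k hk
      have := Finset.mem_range.1 hk
      rw [pj_mul_pj, if_neg (by omega)]
    have hBpj0 : ∀ j, j ≤ 2 * W.dim X → 2 * W.dim X < j + i → B * W.pj X j = 0 := by
      intro j hj hj2
      rw [hB', sub_mul, one_mul, Finset.sum_mul, Finset.sum_eq_single (2 * W.dim X - j)]
      · rw [show 2 * W.dim X - (2 * W.dim X - j) = j by omega, pj_idem, sub_self]
      · intro k hk hk2
        have := Finset.mem_range.1 hk
        rw [pj_mul_pj, if_neg (by omega)]
      · intro h
        exact absurd (Finset.mem_range.2 (by omega)) h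
    have h2 : A * θ * B * L ^ (W.dim X - i) = W.pj X i := by
      refine mat_ext fun j v hv => ?_
      rw [← Matrix.mulVec_mulVec, ← Matrix.mulVec_mulVec, ← Matrix.mulVec_mulVec]
      by_cases hji : j = i
      · subst hji
        have hw : W.InH X (2 * W.dim X - j) (L ^ (W.dim X - j) *ᵥ v) :=
          inH_shift (hW.cyc_deg X X _ _ hLp) (by omega) hv
        have e1 : B *ᵥ (L ^ (W.dim X - j) *ᵥ v) = L ^ (W.dim X - j) *ᵥ v := by
          conv_lhs => rw [← pj_mulVec _ _ hw, Matrix.mulVec_mulVec, hBpj _ (by omega),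
            pj_mulVec _ _ hw]
        have e2 : θ *ᵥ (L ^ (W.dim X - j) *ᵥ v) = v := by
          have h5 := congrArg (fun M : W.Hom X X => M *ᵥ v) hθL'
          beta_reduce at h5
          rw [← Matrix.mulVec_mulVec, ← Matrix.mulVec_mulVec, pj_mulVec j v hv] at h5
          exact h5
        have e3 : A *ᵥ v = v := by
          conv_lhs => rw [← pj_mulVec _ _ hv, Matrix.mulVec_mulVec, hApj _ le_rfl,
            pj_mulVec _ _ hv]
        rw [e1, e2, e3, pj_mulVec j v hv]
      · rw [pj_not hji hv]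
        obtain ⟨w, hw⟩ : ∃ w, w = L ^ (W.dim X - i) *ᵥ v := ⟨_, rfl⟩
        have hwd : W.InH X (j + 2 * (W.dim X - i)) w := by
          rw [hw]
          exact inH_shift (hW.cyc_deg X X _ _ hLp) (by omega) hv
        rw [← hw]
        by_cases hbig : 2 * W.dim X < j + 2 * (W.dim X - i)
        · have h0 : w = 0 := by
            funext a
            by_contra h3
            have h4 := hwd a h3
            have h5 := hW.deg_le X a
            omega
          rw [h0]
          simp only [Matrix.mulVec_zero]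
        · rcases Nat.lt_or_ge j i with h3 | h3
          · -- the target has degree `j < i`
            have h4 : W.InH X j (θ *ᵥ (B *ᵥ w)) :=
              inH_shift (hW.cyc_deg X X _ _ hθ) (by omega)
                (inH_mulVec (hW.cyc_deg X X 0 _ hBm) hwd)
            rw [← pj_mulVec _ _ h4, Matrix.mulVec_mulVec, hApj0 j h3, Matrix.zero_mulVec]
          · have e1 : B *ᵥ w = 0 := by
              rw [← pj_mulVec _ _ hwd, Matrix.mulVec_mulVec, hBpj0 _ (by omega) (by omega),
                Matrix.zero_mulVec]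
            rw [e1]
            simp only [Matrix.mulVec_zero]
    rw [← h2]
    exact h1

/-- by duality the Künneth projectors of degree less than the dimension are enough -/
theorem C_of_low (hW : W.Calculus) (hL : Cohomology W) {n : ℕ} {X : W.Var n}
    (h : ∀ i < W.dim X, W.pj X i ∈ W.cyc X X 0) : W.C X := by
  obtain ⟨d, hX⟩ : ∃ d, d = W.dim X := ⟨_, rfl⟩
  rw [← hX] at h
  have hne : ∀ i, i ≠ d → W.pj X i ∈ W.cyc X X 0 := by
    intro i hi
    rcases Nat.lt_or_ge i d with hlt | hge
    · exact h i hlt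
    · rcases Nat.lt_or_ge (2 * d) i with h6 | h6
      · rw [pj_eq_zero X (2 * d) i (fun a => by have := hW.deg_le X a; omega) h6]
        exact Submodule.zero_mem _
      · have h1 := hL.dual X (2 * d - i) (by omega) (h _ (by omega))
        rw [← hX, show 2 * d - (2 * d - i) = i by omega] at h1
        exact h1
  intro i
  by_cases hi : i = d
  · subst hi
    have h4 := sum_pj X (2 * i) (fun a => by have := hW.deg_le X a; omega)
    rw [← Finset.add_sum_erase _ _ (show i ∈ Finset.range (2 * i + 1) by simp; omega)] at h4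
    have h5 : W.pj X i = 1 - ∑ j ∈ (Finset.range (2 * i + 1)).erase i, W.pj X j := by
      rw [← h4]; abel
    rw [h5]
    exact Submodule.sub_mem _ (hW.one_mem X)
      (Submodule.sum_mem _ fun j hj => hne j (Finset.ne_of_mem_erase hj))
  · exact hne i hi

/-- the Künneth projectors in the degrees `0` and `1` -/
theorem pj_low (hL : Cohomology W) {n : ℕ} (X : W.Var n) {i : ℕ} (hi : i ≤ 1) :
    W.pj X i ∈ W.cyc X X 0 := by
  have hB : ∀ j ≤ 1, W.BDeg X j := by
    intro j hj
    have h1 : j = 0 ∨ j = 1 := by omega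
    rcases h1 with rfl | rfl
    · exact (hL.low X).1
    · exact (hL.low X).2
  rcases Nat.lt_or_ge i (W.dim X) with h1 | h1
  · exact pj_of_bdeg hL.calculus hL i h1 fun j hj => hB j (by omega)
  · exact C_of_low hL.calculus hL (fun j hj =>
      pj_of_bdeg hL.calculus hL j hj fun k hk => hB k (by omega)) i

/-- ALL -/
theorem all_of_bdeg (hW : W.Calculus) (hL : Cohomology W) {n : ℕ} {X : W.Var n}
    (h : ∀ i < W.dim X, W.BDeg X i) : W.C X ∧ W.B X ∧ ∀ i ≤ W.dim X, Pure W X i := by
  have hC : W.C X := C_of_low hW hL fun i hi =>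
    pj_of_bdeg hW hL i hi fun j hj => h j (by omega)
  have hB : W.B X := by
    intro i hi
    rcases hi.lt_or_eq with h1 | h1
    · exact h i h1
    · subst h1
      intro L _
      refine ⟨1, by rw [sub_self]; exact hW.one_mem X, ?_⟩
      show 1 * L ^ (W.dim X - W.dim X) * W.pj X (W.dim X) = W.pj X (W.dim X)
      rw [Nat.sub_self, pow_zero, one_mul, one_mul]
  exact ⟨hC, hB, fun i hi => pure_of_bdeg hW hL hi (hC i) (hB i hi)⟩

omit [CharZero K] in
/-- a linear map whose kernel is contained in the kernel of another one -/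
theorem left_inv_mat {m : ℕ} (s P : Matrix (Fin m) (Fin m) K)
    (h : ∀ v : Fin m → K, s *ᵥ v = 0 → P *ᵥ v = 0) : ∃ s' : Matrix (Fin m) (Fin m) K, s' * s = P := by
  obtain ⟨f, hf⟩ : ∃ f, f = Matrix.toLin' s := ⟨_, rfl⟩
  obtain ⟨g, hg⟩ : ∃ g, g = Matrix.toLin' P := ⟨_, rfl⟩
  have hker : LinearMap.ker f ≤ LinearMap.ker g := by
    intro v hv
    rw [LinearMap.mem_ker, hf, Matrix.toLin'_apply] at hv
    rw [LinearMap.mem_ker, hg, Matrix.toLin'_apply]
    exact h v hv
  obtain ⟨h1, hh⟩ := LinearMap.exists_extend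
    (((LinearMap.ker f).liftQ g hker).comp f.quotKerEquivRange.symm.toLinearMap)
  refine ⟨LinearMap.toMatrix' h1, ?_⟩
  have h2 : h1.comp f = g := by
    apply LinearMap.ext
    intro v
    have h3 := LinearMap.congr_fun hh ⟨f v, LinearMap.mem_range_self f v⟩
    have h4 : f.quotKerEquivRange.symm ⟨f v, LinearMap.mem_range_self f v⟩ =
        Submodule.Quotient.mk v := by
      rw [LinearEquiv.symm_apply_eq]
      rfl
    simp only [LinearMap.comp_apply, Submodule.subtype_apply, LinearEquiv.coe_coe] at h3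
    rw [h4] at h3
    rw [LinearMap.comp_apply, h3]
    rfl
  have h5 : Matrix.toLin' (LinearMap.toMatrix' h1 * s) = Matrix.toLin' P := by
    rw [Matrix.toLin'_mul, Matrix.toLin'_toMatrix', ← hf, ← hg, h2]
  exact Matrix.toLin'.injective h5

/-- PRO: products -/
theorem pure_prod (hW : W.Calculus) (hP : Cohomology W) {n : ℕ} {X Y : W.Var n} {i : ℕ}
    (hi : i ≤ W.dim (W.prod X Y))
    (h : ∀ a b : ℕ, a ≤ 2 * W.dim X → b ≤ 2 * W.dim Y → a + b = 2 * W.dim (W.prod X Y) - i →
      Sig W X a ∧ Sig W Y b) : Pure W (W.prod X Y) i := by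
  have hdV := hP.dim_prod X Y
  obtain ⟨n0, hn0⟩ : ∃ n0, n0 = 2 * W.dim (W.prod X Y) - i := ⟨_, rfl⟩
  rw [← hn0] at h
  obtain ⟨V, hV⟩ : ∃ V : Finset ℕ, V = (Finset.range (n0 + 1)).filter
    (fun a => a ≤ 2 * W.dim X ∧ n0 - a ≤ 2 * W.dim Y) := ⟨_, rfl⟩
  have hVmem : ∀ a, a ∈ V ↔ a ≤ n0 ∧ a ≤ 2 * W.dim X ∧ n0 - a ≤ 2 * W.dim Y := by
    intro a
    rw [hV, Finset.mem_filter, Finset.mem_range, Nat.lt_succ_iff]
  -- the isomorphisms on the factors
  have hex : ∀ a, ∃ σ : W.Hom X X, ∃ τ : W.Hom Y Y, a ∈ V →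
      (σ ∈ W.cyc X X ((W.dim X : ℤ) - a) ∧ σ * W.pj X a = σ ∧
        ∀ v, W.InH X a v → σ *ᵥ v = 0 → v = 0) ∧
      (τ ∈ W.cyc Y Y ((W.dim Y : ℤ) - ((n0 - a : ℕ) : ℤ)) ∧ τ * W.pj Y (n0 - a) = τ ∧
        ∀ v, W.InH Y (n0 - a) v → τ *ᵥ v = 0 → v = 0) := by
    intro a
    by_cases hc : a ∈ V
    · have hc' := (hVmem a).1 hc
      obtain ⟨⟨σ, h1⟩, ⟨τ, h2⟩⟩ := h a (n0 - a) hc'.2.1 hc'.2.2 (by omega)
      exact ⟨σ, τ, fun _ => ⟨h1, h2⟩⟩
    · exact ⟨0, 0, fun h1 => absurd h1 hc⟩
  choose s t hst using hex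
  have hterm : ∀ a ∈ V, W.ext (s a) (t a) ∈
      W.cyc (W.prod X Y) (W.prod X Y) ((i : ℤ) - W.dim (W.prod X Y)) := by
    intro a ha
    have ha' := (hVmem a).1 ha
    have h1 := hP.ext_mem X Y _ _ _ (hst a ha).1.1 _ (hst a ha).2.1
    have e : (W.dim X : ℤ) - a + ((W.dim Y : ℤ) - ((n0 - a : ℕ) : ℤ)) =
        (i : ℤ) - W.dim (W.prod X Y) := by
      omega
    rw [e] at h1
    exact h1
  have hρ : ∑ a ∈ V, W.ext (s a) (t a) ∈
      W.cyc (W.prod X Y) (W.prod X Y) ((i : ℤ) - W.dim (W.prod X Y)) :=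
    Submodule.sum_mem _ hterm
  -- the source degree
  have hsrc : ∀ a ∈ V, W.ext (s a) (t a) * W.pj (W.prod X Y) n0 = W.ext (s a) (t a) := by
    intro a ha
    ext b c
    rw [mul_pj_apply]
    split_ifs with hc
    · rfl
    · symm
      by_contra hne
      apply hc
      obtain ⟨⟨x, y⟩, rfl⟩ := (W.pr X Y).surjective c
      rw [hP.deg_prod]
      unfold Weil.ext at hne
      simp only [Matrix.of_apply, Equiv.symm_apply_apply] at hne
      have h1 := left_ne_zero_of_mul hne
      have h2 := right_ne_zero_of_mul hne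
      rw [← (hst a ha).1.2.1, mul_pj_apply] at h1
      rw [← (hst a ha).2.2.1, mul_pj_apply] at h2
      have h3 : W.deg X x = a := by
        by_contra h4
        rw [if_neg h4] at h1
        exact h1 rfl
      have h4 : W.deg Y y = n0 - a := by
        by_contra h4
        rw [if_neg h4] at h2
        exact h2 rfl
      have := (hVmem a).1 ha
      omega
  refine ⟨∑ a ∈ V, W.ext (s a) (t a), hρ, ?_, ?_⟩
  · rw [pj_comm (hW.cyc_deg _ _ _ _ hρ) n0 i (by omega), Finset.sum_mul]
    exact Finset.sum_congr rfl hsrc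
  · intro w hw h0
    rw [← hn0] at hw
    -- the components of `w`
    have hcomp : ∀ a ∈ V, W.ext (W.pj X a) (W.pj Y (n0 - a)) *ᵥ w = 0 := by
      intro a ha
      have ha' := (hVmem a).1 ha
      obtain ⟨⟨hs1, hs2, hs3⟩, ⟨ht1, ht2, ht3⟩⟩ := hst a ha
      obtain ⟨s', hs'⟩ := left_inv_mat (s a) (W.pj X a) (fun v hv => by
        refine hs3 _ (inH_pj' a v) ?_
        rw [Matrix.mulVec_mulVec, hs2, hv])
      obtain ⟨t', ht'⟩ := left_inv_mat (t a) (W.pj Y (n0 - a)) (fun v hv => by
        refine ht3 _ (inH_pj' _ v) ?_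
        rw [Matrix.mulVec_mulVec, ht2, hv])
      have hpl : ∀ b ∈ V, W.pj X (2 * W.dim X - a) * s b = if b = a then s a else 0 := by
        intro b hb
        have hb' := (hVmem b).1 hb
        obtain ⟨⟨hb1, hb2, _⟩, _⟩ := hst b hb
        have e : s b = W.pj X (2 * W.dim X - b) * s b := by
          rw [pj_comm (hW.cyc_deg _ _ _ _ hb1) b (2 * W.dim X - b) (by omega), hb2]
        rw [e, ← mul_assoc, pj_mul_pj]
        by_cases hba : b = a
        · subst hba
          rw [if_pos rfl, if_pos rfl, ← e]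
        · rw [if_neg (by omega), if_neg hba, zero_mul]
      have h1 : W.ext (s' * W.pj X (2 * W.dim X - a)) t' * (∑ b ∈ V, W.ext (s b) (t b)) =
          W.ext (W.pj X a) (W.pj Y (n0 - a)) := by
        rw [Finset.mul_sum, Finset.sum_eq_single a]
        · rw [Pool.Agent.H90.FT.ext_mul, mul_assoc, hpl a ha, if_pos rfl, hs', ht']
        · intro b hb hba
          rw [Pool.Agent.H90.FT.ext_mul, mul_assoc, hpl b hb, if_neg hba, mul_zero,
            Pool.Agent.H90.FT.ext_zero_left]
        · intro hna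
          exact absurd ha hna
      rw [← h1, ← Matrix.mulVec_mulVec, h0, Matrix.mulVec_zero]
    funext c
    obtain ⟨⟨x, y⟩, rfl⟩ := (W.pr X Y).surjective c
    by_contra hne
    have hdeg := hw _ hne
    rw [hP.deg_prod] at hdeg
    have hx := hW.deg_le X x
    have hy := hW.deg_le Y y
    have ha : W.deg X x ∈ V := (hVmem _).2 ⟨by omega, hx, by omega⟩
    have h1 := congrFun (hcomp _ ha) (W.pr X Y (x, y))
    rw [Matrix.mulVec, dotProduct, Finset.sum_eq_single (W.pr X Y (x, y))] at h1
    · apply hne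
      unfold Weil.ext at h1
      simp only [Matrix.of_apply, Equiv.symm_apply_apply, pj_apply, if_true] at h1
      rw [if_pos (by omega)] at h1
      simpa using h1
    · intro c' _ hc'
      obtain ⟨⟨x', y'⟩, rfl⟩ := (W.pr X Y).surjective c'
      unfold Weil.ext
      simp only [Matrix.of_apply, Equiv.symm_apply_apply, pj_apply]
      by_cases hxx : x = x'
      · have hyy : y ≠ y' := by
          intro hyy
          apply hc'
          rw [hxx, hyy]
        rw [if_neg hyy, mul_zero, zero_mul]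
      · rw [if_neg hxx, zero_mul, zero_mul]
    · intro h2
      exact absurd (Finset.mem_univ _) h2

end Pool.Agent.H64.LS
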