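import Mathlib

/-!
# A limit argument
-/

set_option autoImplicit false

open Matrix Polynomial

namespace Pool.Agent.H64.LS

variable {K : Type} [Field K] [CharZero K] {ι : Type} [Fintype ι] [DecidableEq ι]

/-- a matrix which is injective on the image of an idempotent has a left inverse there -/
theorem exists_left {A p : Matrix ι ι K} (hinj : ∀ v, p *ᵥ v = v → A *ᵥ v = 0 → v = 0)
    (hp : p * p = p) : ∃ R : Matrix ι ι K, R * A * p = p := by
  let U : Submodule K (ι → K) := LinearMap.range p.mulVecLin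
  have hU : ∀ v ∈ U, p *ᵥ v = v := by
    rintro v ⟨x, rfl⟩
    rw [Matrix.mulVecLin_apply, Matrix.mulVec_mulVec, hp]
  let f : U →ₗ[K] (ι → K) := A.mulVecLin ∘ₗ U.subtype
  have hf : LinearMap.ker f = ⊥ := by
    rw [LinearMap.ker_eq_bot']
    rintro ⟨v, hv⟩ h0
    apply Subtype.ext
    exact hinj v (hU v hv) h0
  obtain ⟨g, hg⟩ := LinearMap.exists_leftInverse_of_injective f hf
  refine ⟨LinearMap.toMatrix' (U.subtype ∘ₗ g), ?_⟩
  have key : ∀ v, (LinearMap.toMatrix' (U.subtype ∘ₗ g) * A * p) *ᵥ v = p *ᵥ v := by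
    intro v
    rw [← Matrix.mulVec_mulVec, ← Matrix.mulVec_mulVec, LinearMap.toMatrix'_mulVec]
    have h1 : p *ᵥ v ∈ U := ⟨v, rfl⟩
    have h2 := LinearMap.congr_fun hg ⟨p *ᵥ v, h1⟩
    have h3 : f ⟨p *ᵥ v, h1⟩ = A *ᵥ (p *ᵥ v) := rfl
    rw [LinearMap.comp_apply, h3, LinearMap.id_apply] at h2
    rw [LinearMap.comp_apply, h2]
    rfl
  ext i j
  have h4 := congrFun (key (Pi.single j 1)) i
  rw [Matrix.mulVec_single_one, Matrix.mulVec_single_one] at h4
  exact h4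

/-- LIM: the operator `M + s η` for small `s` -/
theorem exists_small {t : ℕ} (M η : Matrix ι ι K) (Q : Fin (t + 1) → Matrix ι ι K)
    (w : Fin (t + 1) → ℕ) (hsum : ∑ α, Q α = 1) (horth : ∀ α β, α ≠ β → Q α * Q β = 0)
    (hM : ∀ α, M * Q α = Q α * M) (hη : ∀ α β, w α + 2 < w β → Q β * η * Q α = 0)
    (h0 : ∀ α β, w α + 2 = w β → α = 0 ∨ β = 0 → Q β * η * Q α = 0)
    (p : Matrix ι ι K) (hp : p * p = p) (hpQ : ∀ α, p * Q α = Q α * p) (m : ℕ)
    (hinj : ∀ v, p *ᵥ v = v →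
      (M + ∑ α, ∑ β, if w α + 2 = w β then Q β * η * Q α else 0) ^ m *ᵥ v = 0 → v = 0) :
    ∃ n : ℕ, 0 < n ∧ ∀ v, p *ᵥ v = v → Q 0 *ᵥ v = 0 →
      (1 - Q 0) *ᵥ ((M + (((n : K)⁻¹) ^ 2) • η) ^ m *ᵥ v) = 0 → v = 0 := by
  have hid : ∀ α, Q α * Q α = Q α := by
    intro α
    have h1 : Q α * ∑ β, Q β = Q α := by rw [hsum, mul_one]
    rw [Finset.mul_sum, Finset.sum_eq_single α] at h1
    · exact h1
    · intro β _ hβ
      exact horth α β (Ne.symm hβ)
    · intro h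
      exact absurd (Finset.mem_univ α) h
  have hQQ : ∀ α β, Q α * Q β = if α = β then Q α else 0 := by
    intro α β
    split_ifs with h
    · rw [← h, hid]
    · exact horth α β h
  obtain ⟨e, he⟩ : ∃ e, e = Q 0 := ⟨_, rfl⟩
  have hee : e * e = e := by rw [he, hid]
  have hpe : p * e = e * p := by rw [he, hpQ]
  obtain ⟨N, hN⟩ : ∃ N, N = ∑ α, ∑ β, if w α + 2 = w β then Q β * η * Q α else 0 := ⟨_, rfl⟩
  have hNe : N * e = 0 := by
    rw [hN, Finset.sum_mul]
    refine Finset.sum_eq_zero fun α _ => ?_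
    rw [Finset.sum_mul]
    refine Finset.sum_eq_zero fun β _ => ?_
    split_ifs with h
    · rw [mul_assoc, he, hQQ]
      split_ifs with h2
      · exact h0 α β h (Or.inl h2)
      · rw [mul_zero]
    · rw [zero_mul]
  have heN : e * N = 0 := by
    rw [hN, Finset.mul_sum]
    refine Finset.sum_eq_zero fun α _ => ?_
    rw [Finset.mul_sum]
    refine Finset.sum_eq_zero fun β _ => ?_
    split_ifs with h
    · rw [← mul_assoc, ← mul_assoc, he, hQQ]
      split_ifs with h2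
      · have h3 := h0 α β h (Or.inr h2.symm)
        rw [← h2] at h3
        exact h3
      · rw [zero_mul, zero_mul]
    · rw [mul_zero]
  rw [← hN] at hinj
  have hAe : Commute e (M + N) := by
    show e * (M + N) = (M + N) * e
    rw [mul_add, add_mul, hNe, heN, he, hM]
  obtain ⟨q, hq⟩ : ∃ q, q = (1 - e) * p := ⟨_, rfl⟩
  have h1e : (1 - e) * (1 - e) = 1 - e := by
    rw [mul_sub, mul_one, sub_mul, one_mul, hee, sub_self, sub_zero]
  have hp1e : p * (1 - e) = (1 - e) * p := by rw [mul_sub, sub_mul, mul_one, one_mul, hpe]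
  have hqq : q * q = q := by
    rw [hq, mul_assoc, ← mul_assoc p, hp1e, mul_assoc, hp, ← mul_assoc, h1e]
  have hqv : ∀ v, p *ᵥ v = v → e *ᵥ v = 0 → q *ᵥ v = v := by
    intro v h1 h2
    rw [hq, ← Matrix.mulVec_mulVec, h1, Matrix.sub_mulVec, Matrix.one_mulVec, h2, sub_zero]
  have hqv' : ∀ v, q *ᵥ v = v → p *ᵥ v = v ∧ e *ᵥ v = 0 := by
    intro v h1
    constructor
    · rw [← h1, Matrix.mulVec_mulVec, hq, ← mul_assoc, hp1e, mul_assoc, hp]
    · rw [← h1, Matrix.mulVec_mulVec, hq, ← mul_assoc, mul_sub, mul_one, hee, sub_self, zero_mul,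
        Matrix.zero_mulVec]
  obtain ⟨R, hR⟩ := exists_left (A := (1 - e) * (M + N) ^ m) (p := q) (fun v h1 h2 => by
    obtain ⟨h3, h4⟩ := hqv' v h1
    refine hinj v h3 ?_
    have h5 : (1 - e) * (M + N) ^ m = (M + N) ^ m * (1 - e) := by
      rw [sub_mul, mul_sub, one_mul, mul_one, (hAe.pow_right m).eq]
    rw [h5, ← Matrix.mulVec_mulVec, Matrix.sub_mulVec, Matrix.one_mulVec, h4, sub_zero] at h2
    exact h2) hqq
  -- the family
  let c : Matrix ι ι K →+* Matrix ι ι K[X] := (C : K →+* K[X]).mapMatrix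
  let ev : K → (Matrix ι ι K[X] →+* Matrix ι ι K) := fun μ => (Polynomial.evalRingHom μ).mapMatrix
  have hevc : ∀ μ B, ev μ (c B) = B := by
    intro μ B
    ext i j
    simp [ev, c, RingHom.mapMatrix_apply, Matrix.map_apply]
  have hevX : ∀ μ (k : ℕ) B, ev μ ((X : K[X]) ^ k • c B) = μ ^ k • B := by
    intro μ k B
    ext i j
    simp [ev, c, RingHom.mapMatrix_apply, Matrix.map_apply, Matrix.smul_apply]
    exact mul_comm _ _
  let 𝕋 : Matrix ι ι K[X] :=
    c M + ∑ α, ∑ β, (X : K[X]) ^ (2 + w α - w β) • c (Q β * η * Q α)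
  have hevT : ∀ μ, ev μ 𝕋 = M + ∑ α, ∑ β, μ ^ (2 + w α - w β) • (Q β * η * Q α) := by
    intro μ
    show ev μ (c M + ∑ α, ∑ β, (X : K[X]) ^ (2 + w α - w β) • c (Q β * η * Q α)) = _
    rw [map_add, hevc, map_sum]
    congr 1
    refine Finset.sum_congr rfl fun α _ => ?_
    rw [map_sum]
    exact Finset.sum_congr rfl fun β _ => hevX μ _ _
  have hT0 : ev 0 𝕋 = M + N := by
    rw [hevT, hN]
    congr 1
    refine Finset.sum_congr rfl fun α _ => Finset.sum_congr rfl fun β _ => ?_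
    split_ifs with h
    · rw [show 2 + w α - w β = 0 by omega, pow_zero, one_smul]
    · rcases Nat.lt_or_ge (w α + 2) (w β) with h2 | h2
      · rw [hη α β h2, smul_zero]
      · rw [zero_pow (by omega), zero_smul]
  let 𝔾 : Matrix ι ι K[X] := c R * (c (1 - e) * 𝕋 ^ m * c q) + c (1 - q)
  have hev𝔾 : ∀ μ, ev μ 𝔾 = R * ((1 - e) * (ev μ 𝕋) ^ m * q) + (1 - q) := by
    intro μ
    show ev μ (c R * (c (1 - e) * 𝕋 ^ m * c q) + c (1 - q)) = _
    rw [map_add, map_mul, map_mul, map_mul, map_pow, hevc, hevc, hevc, hevc]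
  have hdet : 𝔾.det ≠ 0 := by
    intro h1
    have h2 : (ev 0 𝔾).det = 0 := by
      have h3 := (Polynomial.evalRingHom (0 : K)).map_det 𝔾
      rw [h1, map_zero] at h3
      exact h3.symm
    rw [hev𝔾, hT0, ← mul_assoc, hR, add_sub_cancel, Matrix.det_one] at h2
    exact one_ne_zero h2
  obtain ⟨n, hn⟩ : ∃ n : ℕ, Polynomial.eval (((n + 1 : ℕ) : K)⁻¹) 𝔾.det ≠ 0 := by
    by_contra hcon
    push Not at hcon
    apply hdet
    apply Polynomial.eq_zero_of_infinite_isRoot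
    refine Set.infinite_of_injective_forall_mem (f := fun n : ℕ => (((n + 1 : ℕ) : K)⁻¹)) ?_ hcon
    intro a b hab
    have h1 : ((a + 1 : ℕ) : K) = ((b + 1 : ℕ) : K) := inv_injective hab
    have h2 : a + 1 = b + 1 := Nat.cast_injective h1
    omega
  refine ⟨n + 1, Nat.succ_pos n, fun v hpv hev hv => ?_⟩
  obtain ⟨μ, hμ⟩ : ∃ μ : K, μ = ((n + 1 : ℕ) : K)⁻¹ := ⟨_, rfl⟩
  rw [← hμ] at hn hv
  have hμ0 : μ ≠ 0 := by
    rw [hμ]
    exact inv_ne_zero (Nat.cast_ne_zero.2 (Nat.succ_ne_zero n))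
  rw [← he] at hev hv
  -- the rescaling
  let D : K → Matrix ι ι K := fun x => ∑ α, x ^ w α • Q α
  have hDQ : ∀ x α, D x * Q α = x ^ w α • Q α := by
    intro x α
    show (∑ β, x ^ w β • Q β) * Q α = _
    rw [Finset.sum_mul, Finset.sum_eq_single α]
    · rw [smul_mul_assoc, hid]
    · intro β _ hβ
      rw [smul_mul_assoc, horth β α hβ, smul_zero]
    · intro h
      exact absurd (Finset.mem_univ α) h
  have hQD : ∀ x α, Q α * D x = x ^ w α • Q α := by
    intro x α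
    show Q α * (∑ β, x ^ w β • Q β) = _
    rw [Finset.mul_sum, Finset.sum_eq_single α]
    · rw [mul_smul_comm, hid]
    · intro β _ hβ
      rw [mul_smul_comm, horth α β (Ne.symm hβ), smul_zero]
    · intro h
      exact absurd (Finset.mem_univ α) h
  have hDD : D μ * D μ⁻¹ = 1 := by
    show D μ * (∑ β, μ⁻¹ ^ w β • Q β) = 1
    rw [Finset.mul_sum, ← hsum]
    refine Finset.sum_congr rfl fun β _ => ?_
    rw [mul_smul_comm, hDQ, smul_smul, ← mul_pow, inv_mul_cancel₀ hμ0, one_pow, one_smul]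
  have hDD' : D μ⁻¹ * D μ = 1 := mul_eq_one_comm.1 hDD
  have hpD : ∀ x, p * D x = D x * p := by
    intro x
    show p * (∑ β, x ^ w β • Q β) = (∑ β, x ^ w β • Q β) * p
    rw [Finset.mul_sum, Finset.sum_mul]
    exact Finset.sum_congr rfl fun β _ => by rw [mul_smul_comm, smul_mul_assoc, hpQ]
  have hMD : M * D μ = D μ * M := by
    show M * (∑ β, μ ^ w β • Q β) = (∑ β, μ ^ w β • Q β) * M
    rw [Finset.mul_sum, Finset.sum_mul]
    exact Finset.sum_congr rfl fun β _ => by rw [mul_smul_comm, smul_mul_assoc, hM]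
  have heD : ∀ x, e * D x = D x * e := by
    intro x
    rw [he, hQD, hDQ]
  have hDT : D μ * ev μ 𝕋 = (M + μ ^ 2 • η) * D μ := by
    rw [hevT, mul_add, add_mul, hMD]
    congr 1
    have h1 : (μ ^ 2 • η) * D μ = ∑ β, ∑ α, (μ ^ 2 * μ ^ w α) • (Q β * η * Q α) := by
      have h2 : (μ ^ 2 • η) * D μ = (∑ β, Q β) * (μ ^ 2 • η) * (∑ α, μ ^ w α • Q α) := by
        rw [hsum, one_mul]
      rw [h2, Finset.sum_mul, Finset.sum_mul]
      refine Finset.sum_congr rfl fun β _ => ?_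
      rw [Finset.mul_sum]
      refine Finset.sum_congr rfl fun α _ => ?_
      rw [mul_smul_comm, mul_smul_comm, smul_mul_assoc, smul_smul, mul_comm]
    rw [Finset.sum_comm] at h1
    rw [h1, Finset.mul_sum]
    refine Finset.sum_congr rfl fun α _ => ?_
    rw [Finset.mul_sum]
    refine Finset.sum_congr rfl fun β _ => ?_
    rw [mul_smul_comm, mul_assoc, ← mul_assoc, hDQ, smul_mul_assoc, smul_smul]
    rcases Nat.lt_or_ge (w α + 2) (w β) with h2 | h2
    · have h3 := hη α β h2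
      rw [mul_assoc] at h3
      rw [h3, smul_zero, smul_zero]
    · rw [← pow_add, ← pow_add, show 2 + w α - w β + w β = 2 + w α by omega]
  have hDTm : ∀ k : ℕ, D μ * (ev μ 𝕋) ^ k = (M + μ ^ 2 • η) ^ k * D μ := by
    intro k
    induction k with
    | zero => rw [pow_zero, pow_zero, mul_one, one_mul]
    | succ k ih => rw [pow_succ, ← mul_assoc, ih, mul_assoc, hDT, ← mul_assoc, ← pow_succ]
  obtain ⟨v', hv'⟩ : ∃ v', v' = D μ⁻¹ *ᵥ v := ⟨_, rfl⟩
  have hDv' : D μ *ᵥ v' = v := by rw [hv', Matrix.mulVec_mulVec, hDD, Matrix.one_mulVec]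
  have hpv' : p *ᵥ v' = v' := by
    rw [hv', Matrix.mulVec_mulVec, hpD, ← Matrix.mulVec_mulVec, hpv]
  have hev' : e *ᵥ v' = 0 := by
    rw [hv', Matrix.mulVec_mulVec, heD, ← Matrix.mulVec_mulVec, hev, Matrix.mulVec_zero]
  have h2 : (1 - e) *ᵥ ((ev μ 𝕋) ^ m *ᵥ v') = 0 := by
    have h3 : D μ *ᵥ ((1 - e) *ᵥ ((ev μ 𝕋) ^ m *ᵥ v')) = 0 := by
      have h4 : D μ * (1 - e) = (1 - e) * D μ := by
        rw [mul_sub, sub_mul, mul_one, one_mul, heD]
      rw [Matrix.mulVec_mulVec, h4, ← Matrix.mulVec_mulVec, Matrix.mulVec_mulVec v', hDTm,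
        ← Matrix.mulVec_mulVec, hDv']
      exact hv
    have h5 := congrArg (fun x => D μ⁻¹ *ᵥ x) h3
    beta_reduce at h5
    rw [Matrix.mulVec_mulVec, hDD', Matrix.one_mulVec, Matrix.mulVec_zero] at h5
    exact h5
  have h6 : ev μ 𝔾 *ᵥ v' = 0 := by
    rw [hev𝔾, Matrix.add_mulVec, Matrix.sub_mulVec, Matrix.one_mulVec, hqv v' hpv' hev', sub_self,
      add_zero, ← Matrix.mulVec_mulVec, ← Matrix.mulVec_mulVec, hqv v' hpv' hev',
      ← Matrix.mulVec_mulVec, h2, Matrix.mulVec_zero]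
  have h7 : (ev μ 𝔾).det ≠ 0 := by
    have h8 := (Polynomial.evalRingHom μ).map_det 𝔾
    rw [show (ev μ 𝔾).det = (((Polynomial.evalRingHom μ).mapMatrix) 𝔾).det from rfl, ← h8]
    exact hn
  have h9 : v' = 0 := Matrix.eq_zero_of_mulVec_eq_zero h7 h6
  rw [← hDv', h9, Matrix.mulVec_zero]

end Pool.Agent.H64.LS
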