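import Pool.Agent.H64.LS.Har
import Pool.Agent.H64.LS.Lim

/-!
# The Lefschetz standard conjecture and surjective morphisms
-/

set_option autoImplicit false

open Matrix

namespace Pool.Agent.H64.LS

open Pool.Agent.H64.CC
open Pool.Agent.H64.FT (pj_apply pj_mul_apply mul_pj_apply pj_comm pj_zero_of pj_mul_pj pj_comm0
  mul_pj_eq_zero apply_of_mul_pj pj_mulVec inH_mulVec sum_pj pj_eq_zero ext_pj NS Fixed Stable
  SlopeSurface)

variable {K : Type} [Field K] [CharZero K] {W : Weil K}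

/-- DOM: surjective morphisms -/
theorem pure_dom (h : Cohomology W) {n : ℕ} {V X : W.Var n} (q : Dominates W V X) {i : ℕ}
    (hi : i ≤ W.dim X) (hV : Pure W V i) : Pure W X i := by
  have hW := h.calculus
  have hd := q.dim_eq
  have hN : (q.N : K) ≠ 0 := by
    have := q.N_pos
    exact_mod_cast this.ne'
  have hab : q.a * q.b = (q.N : K) • (1 : W.Hom X X) := by
    have h1 := q.ab
    have h2 : W.rat (q.N : ℚ) (W.id X) = (((q.N : ℚ) : K)) • (1 : W.Hom X X) := rfl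
    rw [Rat.cast_natCast] at h2
    exact h1.trans h2
  have hQ0 : (q.N : K) • q.Q 0 = q.b * q.a := by
    have h1 := q.Q_zero
    have h2 : W.rat (q.N : ℚ) (q.Q 0) = (((q.N : ℚ) : K)) • q.Q 0 := rfl
    rw [Rat.cast_natCast] at h2
    exact h2.symm.trans h1
  have hpp : W.pj V i * W.pj V i = W.pj V i := pj_idem V i
  obtain ⟨k, hk, hlim⟩ := exists_small q.M q.η q.Q q.w q.sum q.orth q.M_Q q.η_Q q.η_0
    (W.pj V i) hpp (fun α => pj_comm0 (q.Q_deg α) i) (W.dim V - i) (fun v hv h0 => by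
      refine q.hard h (by omega) ?_ h0
      rw [← hv]
      exact inH_pj' i v)
  obtain ⟨L, hLdef⟩ : ∃ L, L = q.M + W.rat ((((k : ℚ))⁻¹) ^ 2) q.η := ⟨_, rfl⟩
  have hL : L ∈ W.Lef V := by
    rw [hLdef]
    refine q.ample _ ?_
    have : (0 : ℚ) < k := by exact_mod_cast hk
    positivity
  have hL2 : L = q.M + (((k : K)⁻¹) ^ 2) • q.η := by
    rw [hLdef]
    have h2 : W.rat ((((k : ℚ))⁻¹) ^ 2) q.η = (((((k : ℚ))⁻¹) ^ 2 : ℚ) : K) • q.η := rfl
    rw [h2]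
    congr 2
    push_cast
    rfl
  rw [← hL2] at hlim
  obtain ⟨θ, hθ, hpθ, hθL⟩ := core hW h (by omega) hV hL
  have hLθ : ∀ w, W.InH V (2 * W.dim V - i) w → L ^ (W.dim V - i) *ᵥ (θ *ᵥ w) = w := by
    intro w hw
    obtain ⟨u, hu, hu'⟩ := h.surj V L hL i (by omega) w hw
    have hu2 : L ^ (W.dim V - i) *ᵥ u = w := hu'
    rw [← hu2, Matrix.mulVec_mulVec u θ, hθL, pj_mulVec i u hu]
  refine ⟨q.a * θ * q.b, comp_cyc hW q.b_mem (comp_cyc hW hθ q.a_mem (by ring) :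
    q.a * θ ∈ W.cyc V X ((i : ℤ) - W.dim V)) (by omega), ?_, ?_⟩
  · have hda := hW.cyc_deg V X 0 _ q.a_mem
    rw [← Matrix.mul_assoc, ← Matrix.mul_assoc, pj_comm hda i i (by ring), Matrix.mul_assoc q.a,
      hpθ]
  · intro w hw h0
    have hbw : W.InH V (2 * W.dim V - i) (q.b *ᵥ w) := by
      have h1 := inH_mulVec (hW.cyc_deg X V 0 _ q.b_mem) hw
      rwa [← hd] at h1
    obtain ⟨v, hv⟩ : ∃ v, v = θ *ᵥ (q.b *ᵥ w) := ⟨_, rfl⟩
    have hav : q.a *ᵥ v = 0 := by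
      rw [hv, Matrix.mulVec_mulVec, Matrix.mulVec_mulVec]
      exact h0
    have hpv : W.pj V i *ᵥ v = v := by
      rw [hv, Matrix.mulVec_mulVec, hpθ]
    have hQv : q.Q 0 *ᵥ v = 0 := by
      have h1 : (q.N : K) • (q.Q 0 *ᵥ v) = 0 := by
        rw [← Matrix.smul_mulVec, hQ0, ← Matrix.mulVec_mulVec, hav, Matrix.mulVec_zero]
      exact (smul_eq_zero.1 h1).resolve_left hN
    have hLv : L ^ (W.dim V - i) *ᵥ v = q.b *ᵥ w := by rw [hv, hLθ _ hbw]
    have h2 : (1 - q.Q 0) *ᵥ (L ^ (W.dim V - i) *ᵥ v) = 0 := by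
      rw [hLv, Matrix.sub_mulVec, Matrix.one_mulVec]
      have h3 : (q.N : K) • (q.Q 0 *ᵥ (q.b *ᵥ w)) = (q.N : K) • (q.b *ᵥ w) := by
        rw [← Matrix.smul_mulVec, hQ0, Matrix.mulVec_mulVec, Matrix.mul_assoc, hab,
          Matrix.mul_smul, Matrix.mul_one, Matrix.smul_mulVec]
      rw [smul_right_injective _ hN h3, sub_self]
    have hv0 := hlim v hpv hQv h2
    rw [hv0, Matrix.mulVec_zero] at hLv
    have h4 : (q.N : K) • w = 0 := by
      have h5 : q.a *ᵥ (q.b *ᵥ w) = 0 := by rw [← hLv, Matrix.mulVec_zero]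
      rw [Matrix.mulVec_mulVec, hab, Matrix.smul_mulVec, Matrix.one_mulVec] at h5
      exact h5
    exact (smul_eq_zero.1 h4).resolve_left hN

end Pool.Agent.H64.LS
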