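import Pool.Agent.H64.LS.Core
import Pool.Agent.H90.FT.Transfer

/-!
# The comparison of two cohomologies
-/

set_option autoImplicit false

open Matrix

namespace Pool.Agent.H64.LS

open Pool.Agent.H64.CC
open Pool.Agent.H64.FT (pj_apply pj_mul_apply mul_pj_apply pj_comm pj_zero_of pj_mul_pj pj_comm0
  mul_pj_eq_zero apply_of_mul_pj pj_mulVec inH_mulVec sum_pj pj_eq_zero ext_pj NS Fixed Stable
  SlopeSurface)

/-- a matrix with the traces of an idempotent is unipotent on it -/
theorem unip_of_traces {m : ℕ} {L : Type} [Field L] [CharZero L] (M P : Matrix (Fin m) (Fin m) L)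
    (hc : M * P = P * M) (hP : P * P = P)
    (h1 : ∀ k : ℕ, (M ^ k * P).trace = P.trace) : ∃ B : ℕ, (1 - M) ^ B * P = 0 := by
  have hc1 : (1 - M) * P = P * (1 - M) := by rw [sub_mul, mul_sub, one_mul, mul_one, hc]
  obtain ⟨B, hB⟩ := nil_of_trace ((1 - M) * P) fun k => by
    rw [Pool.Agent.H90.FT.comm_pow hc1 hP]
    have e : (1 - M) ^ (k + 1) =
        Polynomial.aeval M ((1 - Polynomial.X : Polynomial L) ^ (k + 1)) := by
      rw [map_pow, map_sub, map_one, Polynomial.aeval_X]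
    rw [e, Pool.Agent.H90.FT.trace_aeval M P h1, Polynomial.eval_pow, Polynomial.eval_sub,
      Polynomial.eval_one, Polynomial.eval_X, sub_self, zero_pow (Nat.succ_ne_zero k), zero_mul]
  refine ⟨B + 1, ?_⟩
  rw [← Pool.Agent.H90.FT.comm_pow hc1 hP, pow_succ, hB, zero_mul]

/-- so it is injective on it -/
theorem inj_of_traces {m : ℕ} {L : Type} [Field L] [CharZero L] (M P : Matrix (Fin m) (Fin m) L)
    (hc : M * P = P * M) (hP : P * P = P)
    (h1 : ∀ k : ℕ, (M ^ k * P).trace = P.trace) (v : Fin m → L) (hv : P *ᵥ v = v)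
    (h0 : M *ᵥ v = 0) : v = 0 := by
  obtain ⟨B, hB⟩ := unip_of_traces M P hc hP h1
  have h2 : ∀ k : ℕ, (1 - M) ^ k *ᵥ v = v := by
    intro k
    induction k with
    | zero => rw [pow_zero, Matrix.one_mulVec]
    | succ k ih =>
      rw [pow_succ, ← Matrix.mulVec_mulVec, Matrix.sub_mulVec, h0, Matrix.one_mulVec, sub_zero, ih]
  have h3 := congrArg (fun A : Matrix (Fin m) (Fin m) L => A *ᵥ v) hB
  beta_reduce at h3
  rw [← Matrix.mulVec_mulVec, hv, h2, Matrix.zero_mulVec] at h3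
  exact h3

variable {K K' : Type} [Field K] [CharZero K] [Field K'] [CharZero K'] {W : Weil K} {W' : Weil K'}

/-- the isomorphism for a correspondence which is injective on `Hⁱ` after composition with
`L ^ (d - i)` -/
theorem pure_of_inj (hW : W.Calculus) (hL : Cohomology W) {n : ℕ} {X : W.Var n} {i : ℕ}
    (hi : i ≤ W.dim X) (hpj : W.pj X i ∈ W.cyc X X 0) {L : W.Hom X X} (hLX : L ∈ W.Lef X)
    {θ : W.Hom X X} (hθ : θ ∈ W.cyc X X ((i : ℤ) - W.dim X))
    (h : ∀ v, W.InH X i v → (θ * L ^ (W.dim X - i)) *ᵥ v = 0 → v = 0) : Pure W X i := by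
  refine ⟨W.pj X i * θ, comp_cyc hW hθ hpj (by ring), by rw [← mul_assoc, pj_idem], ?_⟩
  intro w hw h0
  obtain ⟨u, hu, hu2⟩ := hL.surj X L hLX i hi w hw
  have hu3 : L ^ (W.dim X - i) *ᵥ u = w := hu2
  have hLp := pow_cyc hW (hL.mem X L hLX) (W.dim X - i)
  have h1 : W.InH X i (θ *ᵥ w) := inH_shift (hW.cyc_deg X X _ _ hθ) (by omega) hw
  rw [← Matrix.mulVec_mulVec, pj_mulVec i _ h1] at h0
  have h2 : u = 0 := h u hu (by rw [← Matrix.mulVec_mulVec, hu3, h0])
  rw [← hu3, h2, Matrix.mulVec_zero]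

/-- the comparison in degree `0` -/
def Comparison.old (Φ : Comparison W W') : Pool.Agent.H90.FT.Comparison W W' where
  var := Φ.var
  cls := fun X f f' => Φ.cls X 0 f f'
  left := fun X => Φ.left X 0
  right := fun X => Φ.right X 0
  mem := fun X => Φ.mem X 0
  one := Φ.one
  add := fun X => Φ.add X 0
  rat := fun X => Φ.rat X 0
  comp := fun X f g f' g' h1 h2 => by
    have h3 := Φ.comp X 0 0 f g f' g' h1 h2
    rwa [add_zero] at h3
  katzMessing := Φ.katzMessing
  specialise := Φ.specialise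

theorem cls_pow (E : Comparison W W') {n : ℕ} {X : W.Var n}
    {L : W.Hom X X} {L' : W'.Hom (E.var X) (E.var X)} (h : E.cls X 1 L L') (k : ℕ) :
    E.cls X (k : ℤ) (L ^ k) (L' ^ k) := by
  induction k with
  | zero => rw [pow_zero, pow_zero]; exact E.one X
  | succ k ih =>
    have h1 := E.comp X _ _ _ _ _ _ ih h
    rw [pow_succ', pow_succ']
    have e : ((k : ℤ) + 1) = ((k + 1 : ℕ) : ℤ) := by push_cast; rfl
    rw [e] at h1
    exact h1

theorem pure_transfer (E : Comparison W W') (hL : Cohomology W) (hL' : Cohomology W') {n : ℕ}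
    (X : W.Var n) {i : ℕ} (hi : i ≤ W.dim X) : Pure W X i ↔ Pure W' (E.var X) i := by
  have hW := hL.calculus
  have hW' := hL'.calculus
  have hd := E.dim X
  have hi' : i ≤ W'.dim (E.var X) := by omega
  have hcpow : ∀ (f : W.Hom X X) (f' : W'.Hom (E.var X) (E.var X)), E.cls X 0 f f' →
      ∀ k : ℕ, E.cls X 0 (f ^ k) (f' ^ k) := by
    intro f f' h k
    induction k with
    | zero => rw [pow_zero, pow_zero]; exact E.one X
    | succ k ih => rw [pow_succ, pow_succ]; exact E.old.comp X _ _ _ _ h ih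
  have hkm := fun f f' (h : E.cls X 0 f f') => E.old.traces X f f' h i
  simp only [Weil.tr, Weil.comp] at hkm
  constructor
  · intro h
    obtain ⟨L, hLX⟩ := hL.nonempty X
    obtain ⟨L', hLX', hcL⟩ := E.lef X L hLX
    obtain ⟨θ, hθ, -, hθL⟩ := core hW hL hi h hLX
    obtain ⟨θ', hcθ⟩ := E.left X _ θ hθ
    have h1 := E.comp X _ _ _ _ _ _ (cls_pow E hcL (W.dim X - i)) hcθ
    have e : ((W.dim X - i : ℕ) : ℤ) + ((i : ℤ) - W.dim X) = 0 := by omega
    rw [e] at h1
    simp only [Weil.comp] at h1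
    rw [hθL] at h1
    have hθ'm := (E.mem X _ _ _ hcθ).2
    rw [← hd] at hθ'm
    refine pure_of_inj hW' hL' hi'
      ((E.old.transfer hW hW' X (fun d => d = i)).1 (core_pj hW hL hi h)) hLX' hθ'm ?_
    rw [hd]
    have hM := (E.mem X 0 _ _ h1).2
    intro v hv h0
    refine inj_of_traces _ (W'.pj (E.var X) i) ?_ (pj_idem _ i) (fun k => ?_) v
      (pj_mulVec i v hv) h0
    · exact (pj_comm0 (hW'.cyc_deg _ _ 0 _ hM) i).symm
    · obtain ⟨q, hq, hq'⟩ := hkm _ _ (hcpow _ _ h1 k)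
      obtain ⟨r, hr, hr'⟩ := hkm _ _ (E.one X)
      simp only [Weil.id, one_mul] at hr hr'
      have h3 : W.pj X i ^ k * W.pj X i = W.pj X i := by
        rw [← pow_succ]
        exact (show IsIdempotentElem (W.pj X i) from pj_idem X i).pow_succ_eq _
      rw [h3] at hq
      have h4 : q = r := by
        have h5 : (q : K) = (r : K) := by rw [← hq, ← hr]
        exact_mod_cast h5
      have e1 : (W'.pj (E.var X) i).trace = (r : K') := by
        rw [← hr']
        exact congrArg Matrix.trace (one_mul (W'.pj (E.var X) i)).symm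
      have e2 : ((θ' * L' ^ (W.dim X - i)) ^ k * W'.pj (E.var X) i).trace = (q : K') := hq'
      rw [e2, e1, h4]
  · intro h
    obtain ⟨L', hLX'⟩ := hL'.nonempty (E.var X)
    obtain ⟨L, hLX, hcL⟩ := E.lef' X L' hLX'
    obtain ⟨θ', hθ', -, hθL⟩ := core hW' hL' hi' h hLX'
    rw [hd] at hθ' hθL
    obtain ⟨θ, hcθ⟩ := E.right X _ θ' hθ'
    have h1 := E.comp X _ _ _ _ _ _ (cls_pow E hcL (W.dim X - i)) hcθ
    have e : ((W.dim X - i : ℕ) : ℤ) + ((i : ℤ) - W.dim X) = 0 := by omega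
    rw [e] at h1
    simp only [Weil.comp] at h1
    rw [hθL] at h1
    have hθm := (E.mem X _ _ _ hcθ).1
    refine pure_of_inj hW hL hi
      ((E.old.transfer hW hW' X (fun d => d = i)).2 (core_pj hW' hL' hi' h)) hLX hθm ?_
    have hM := (E.mem X 0 _ _ h1).1
    intro v hv h0
    refine inj_of_traces _ (W.pj X i) ?_ (pj_idem _ i) (fun k => ?_) v (pj_mulVec i v hv) h0
    · exact (pj_comm0 (hW.cyc_deg _ _ 0 _ hM) i).symm
    · obtain ⟨q, hq, hq'⟩ := hkm _ _ (hcpow _ _ h1 k)
      obtain ⟨r, hr, hr'⟩ := hkm _ _ (E.one X)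
      simp only [Weil.id, one_mul] at hr hr'
      have h3 : W'.pj (E.var X) i ^ k * W'.pj (E.var X) i = W'.pj (E.var X) i := by
        rw [← pow_succ]
        exact (show IsIdempotentElem (W'.pj (E.var X) i) from pj_idem _ i).pow_succ_eq _
      have e1 : (W'.pj (E.var X) i).trace = (r : K') := by
        rw [← hr']
        exact congrArg Matrix.trace (one_mul (W'.pj (E.var X) i)).symm
      have e2 : (W'.pj (E.var X) i ^ k * W'.pj (E.var X) i).trace = (q : K') := hq'
      rw [h3] at e2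
      have h4 : q = r := by
        have h5 : (q : K') = (r : K') := by rw [← e2, ← e1]
        exact_mod_cast h5
      rw [hq, hr, h4]

end Pool.Agent.H64.LS
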