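import Pool.Agent.H64.LS.Fib
import Pool.Agent.H64.LS.Dom
import Pool.Agent.H64.LS.Trf

/-!
# The classes
-/

set_option autoImplicit false

open Matrix

namespace Pool.Agent.H64.LS

open Pool.Agent.H64.CC
open Pool.Agent.H64.FT (pj_apply pj_mul_apply mul_pj_apply pj_comm pj_zero_of pj_mul_pj pj_comm0
  mul_pj_eq_zero apply_of_mul_pj pj_mulVec inH_mulVec sum_pj pj_eq_zero ext_pj NS Fixed Stable
  SlopeSurface)

section one

variable {K : Type} [Field K] [CharZero K] {W : Weil K} {𝓕 : Fibrations W}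

/-- the isomorphisms in the degrees `0` and `1` -/
theorem pure_low (h : Cohomology W) {n : ℕ} (X : W.Var n) {j : ℕ} (hj : j ≤ 1)
    (hX : j ≤ W.dim X) : Pure W X j := by
  have h1 : j = 0 ∨ j = 1 := by omega
  rcases h1 with rfl | rfl
  · exact pure_of_bdeg h.calculus h hX (pj_low h X hj) (h.low X).1
  · exact pure_of_bdeg h.calculus h hX (pj_low h X hj) (h.low X).2

/-- the varieties of dimension at most `2` -/
theorem bdeg_small (h : Cohomology W) {n : ℕ} (X : W.Var n) (hX : W.dim X ≤ 2) :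
    ∀ i < W.dim X, W.BDeg X i := by
  intro i hi
  have h1 : i = 0 ∨ i = 1 := by omega
  rcases h1 with rfl | rfl
  · exact (h.low X).1
  · exact (h.low X).2

theorem pure_small (h : Cohomology W) {n : ℕ} (X : W.Var n) (hX : W.dim X ≤ 2)
    {j : ℕ} (hj : j ≤ W.dim X) : Pure W X j :=
  (all_of_bdeg h.calculus h (bdeg_small h X hX)).2.2 j hj

/-- fibrations with algebraic fixed classes -/
theorem pure_invariant (h : Cohomology W)
    (hT : ∀ {n : ℕ} {X : W.Var n} {Y : W.Var (n + 1)} (f : 𝓕.Fib X Y), 𝓕.Theory f) {n : ℕ}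
    {X : W.Var n} (hX : 2 ≤ W.dim X) (hi : Invariant 𝓕 X) : Pure W X 2 := by
  by_cases h3 : W.dim X ≤ 2
  · exact pure_small h X h3 hX
  · obtain ⟨Y, f, hfix⟩ := hi
    exact pure_of_crit h hX (crit_of_fib h (hT f) (by omega) hfix)

end one

section two

variable {K K' : Type} [Field K] [CharZero K] [Field K'] [CharZero K'] {W : Weil K}
  {𝓕 : Fibrations W} {W' : Weil K'} {𝓕' : Fibrations W'} {Φ : Comparison W W'}

theorem Class2.pure (h : Cohomology W) (h' : Cohomology W')
    (hT : ∀ {n : ℕ} {X : W.Var n} {Y : W.Var (n + 1)} (f : 𝓕.Fib X Y), 𝓕.Theory f)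
    (hT' : ∀ {n : ℕ} {X : W'.Var n} {Y : W'.Var (n + 1)} (f : 𝓕'.Fib X Y), 𝓕'.Theory f)
    {T : Geometry W 𝓕 W' 𝓕' Φ} {n : ℕ} {X : W.Var n}
    (hX : Class2 T X) : ∀ j ≤ 2, j ≤ W.dim X → Pure W X j := by
  have hW := h.calculus
  -- only the degree `2` is left
  have two : ∀ {n : ℕ} {X : W.Var n}, (2 ≤ W.dim X → Pure W X 2) →
      ∀ j ≤ 2, j ≤ W.dim X → Pure W X j := by
    intro n X h2 j hj hjX
    rcases Nat.lt_or_ge j 2 with h3 | h3
    · exact pure_low h X (by omega) hjX
    · obtain rfl : j = 2 := by omega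
      exact h2 hjX
  induction hX with
  | small X hX => exact two fun h2 => pure_small h X hX h2
  | abelian A hA =>
    exact two fun h2 => (all_of_bdeg hW h fun i hi => T.kleiman A hA i hi.le).2.2 2 h2
  | divisors X hX =>
    refine two fun h2 => pure_of_crit h h2 ⟨0, Submodule.zero_mem _, fun u hu => ⟨0, ?_, ?_⟩⟩
    · exact fun a ha => absurd rfl ha
    · rw [Matrix.mulVec_zero, sub_zero]
      exact hX u hu
  | fib X hX => exact two fun h2 => pure_invariant h hT h2 hX
  | fib' X hX =>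
    refine two fun h2 => ?_
    have hd := Φ.dim X
    exact (pure_transfer Φ h h' X h2).2 (pure_invariant h' hT' (by omega) hX)
  | prod X Y _ _ hX hY =>
    refine two fun h2 => ?_
    have hd := h.dim_prod X Y
    have hsig : ∀ {n : ℕ} (V : W.Var n), (∀ j ≤ 2, j ≤ W.dim V → Pure W V j) →
        ∀ a ≤ 2 * W.dim V, 2 * W.dim V ≤ a + 2 → Sig W V a := by
      intro n V hV a ha ha2
      obtain ⟨j, hj, rfl⟩ : ∃ j ≤ 2, a = 2 * W.dim V - j := ⟨2 * W.dim V - a, by omega, by omega⟩
      by_cases hjV : j ≤ W.dim V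
      · exact sig_of_pure hW hjV (hV j hj hjV)
      · have hV2 : W.dim V ≤ 2 := by omega
        exact sig_low hW h (by omega) ((all_of_bdeg hW h (bdeg_small h V hV2)).1 _)
    refine pure_prod hW h h2 fun a b ha hb hab => ⟨?_, ?_⟩
    · exact hsig X hX a ha (by omega)
    · exact hsig Y hY b hb (by omega)
  | dom V X q _ hV =>
    refine two fun h2 => ?_
    have hd := q.dim_eq
    exact pure_dom h q h2 (hV 2 le_rfl (by omega))
  | pull Z X hZX _ hZ =>
    refine two fun h2 => pure_of_crit h h2 (crit_over hW h hZX (hZ 2 le_rfl hZX.1))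
  | sect V S s hS _ hV =>
    refine two fun h2 => pure_sect hW s (by omega) (hV 2 le_rfl ?_)
    have hd := s.dim_eq
    omega

theorem ClassB.all (h : Cohomology W) (h' : Cohomology W')
    (hT : ∀ {n : ℕ} {X : W.Var n} {Y : W.Var (n + 1)} (f : 𝓕.Fib X Y), 𝓕.Theory f)
    (hT' : ∀ {n : ℕ} {X : W'.Var n} {Y : W'.Var (n + 1)} (f : 𝓕'.Fib X Y), 𝓕'.Theory f)
    {T : Geometry W 𝓕 W' 𝓕' Φ} {n : ℕ} {X : W.Var n}
    (hX : ClassB T X) : W.C X ∧ W.B X ∧ ∀ i ≤ W.dim X, Pure W X i := by
  have hW := h.calculus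
  induction hX with
  | small X hX => exact all_of_bdeg hW h (bdeg_small h X hX)
  | abelian A hA => exact all_of_bdeg hW h fun i hi => T.kleiman A hA i hi.le
  | three X h3 hX =>
    refine all_of_bdeg hW h fun i hi => ?_
    exact bdeg_of_pure hW h hi.le (Class2.pure h h' hT hT' hX i (by omega) hi.le)
  | prod X Y _ _ hX hY =>
    have hd := h.dim_prod X Y
    have hsig : ∀ {n : ℕ} (V : W.Var n), W.C V → (∀ j ≤ W.dim V, Pure W V j) →
        ∀ a ≤ 2 * W.dim V, Sig W V a := by
      intro n V hC hV a ha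
      by_cases haV : a ≤ W.dim V
      · exact sig_low hW h haV (hC a)
      · obtain ⟨j, hj, rfl⟩ : ∃ j ≤ W.dim V, a = 2 * W.dim V - j :=
          ⟨2 * W.dim V - a, by omega, by omega⟩
        exact sig_of_pure hW hj (hV j hj)
    refine all_of_bdeg hW h fun i hi => bdeg_of_pure hW h hi.le ?_
    exact pure_prod hW h hi.le fun a b ha hb _ =>
      ⟨hsig X hX.1 hX.2.2 a ha, hsig Y hY.1 hY.2.2 b hb⟩
  | dom V X q _ hV =>
    have hd := q.dim_eq
    refine all_of_bdeg hW h fun i hi => bdeg_of_pure hW h hi.le ?_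
    exact pure_dom h q hi.le (hV.2.2 i (by omega))
  | sect V S s _ hV =>
    have hd := s.dim_eq
    refine all_of_bdeg hW h fun i hi => bdeg_of_pure hW h hi.le ?_
    exact pure_sect hW s hi (hV.2.2 i (by omega))

/-- threefolds -/
theorem class2_threefold (hT : ∀ {n : ℕ} {X : W.Var n} {Y : W.Var (n + 1)} (f : 𝓕.Fib X Y),
    𝓕.Theory f) {T : Geometry W 𝓕 W' 𝓕' Φ}
    {n : ℕ} {X : W.Var n} (hX : W.dim X = 3) :
    (T.LowGenus X → Class2 T X) ∧ (T.Special X → Class2 T X) ∧
    (T.Iitaka → T.kod X = 1 ∨ T.kod X = 2 → Class2 T X) ∧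
    (T.Iitaka → T.MinimalModels → T.kod X < 3 →
      ¬ (T.kod X = 0 ∧ Vanishes W X 1 ∧ ¬ AllDivisors W X) → Class2 T X) ∧
    (Slope 𝓕' (Φ.var X) → Class2 T X) ∧ (TateType 𝓕 X → Class2 T X) := by
  have hsplit : ∀ {X : W.Var n}, Split W X → Class2 T X := by
    rintro X ⟨A, B, hA, hB, h1 | h1⟩
    · exact Class2.pull A X h1 (Class2.small A hA)
    · exact Class2.pull _ X h1 (Class2.prod A B (Class2.small A hA) (Class2.small B hB))
  have hslope : ∀ {X : W.Var n}, Slope 𝓕' (Φ.var X) → Class2 T X := by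
    intro X hs
    exact Class2.fib' X (invariant_of_slope hs)
  have hgenus : ∀ {X : W.Var n}, W.dim X = 3 → T.LowGenus X → Class2 T X := by
    intro X hX hg
    obtain ⟨X', ⟨q⟩, h1 | h1⟩ := T.curves X hX hg
    · exact Class2.dom X' X q (hsplit h1)
    · exact Class2.dom X' X q (Class2.fib X' (invariant_of_tate h1))
  have hspecial : ∀ {X : W.Var n}, W.dim X = 3 → T.Special X → Class2 T X := by
    rintro X hX ⟨X', Y, ⟨q⟩, ⟨f⟩, hk⟩
    have hd := q.dim_eq
    have hd2 := (hT f).dim_eq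
    refine Class2.dom X' X q ?_
    rcases T.surfaces X' Y f (by omega) hk with h1 | ⟨X'', ⟨q'⟩, h1⟩ | h1 | h1
    · exact hgenus (by omega) h1
    · exact Class2.dom X'' X' q' (hsplit h1)
    · exact Class2.fib X' ⟨Y, f, fun y hy _ => h1 y hy⟩
    · exact hslope h1
  have hiit : T.Iitaka → T.kod X = 1 ∨ T.kod X = 2 → Class2 T X := by
    intro hI hk
    rcases hI X hX hk with h1 | h1
    · exact hgenus hX h1
    · exact hspecial hX h1
  refine ⟨hgenus hX, hspecial hX, hiit, ?_, hslope,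
    fun hc => Class2.fib X (invariant_of_tate hc)⟩
  · intro hI hM h3 h0
    by_cases hA : AllDivisors W X
    · exact Class2.divisors X hA
    have hn : T.kod X = 0 → ¬ Vanishes W X 1 := fun h1 h2 => h0 ⟨h1, h2, hA⟩
    have hM' := hM X hX
    have hk : (T.kod X = 1 ∨ T.kod X = 2) ∨ T.kod X = ⊥ ∨ T.kod X = 0 := by
      generalize T.kod X = k at h3
      induction k using WithBot.recBotCoe with
      | bot => exact Or.inr (Or.inl rfl)
      | coe k =>
        have h4 : k < 3 := by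
          have h5 : ((3 : ℕ) : WithBot ℕ) = 3 := rfl
          rw [← h5] at h3
          exact WithBot.coe_lt_coe.1 h3
        have h5 : k = 0 ∨ k = 1 ∨ k = 2 := by omega
        rcases h5 with rfl | rfl | rfl
        · exact Or.inr (Or.inr rfl)
        · exact Or.inl (Or.inl rfl)
        · exact Or.inl (Or.inr rfl)
    rcases hk with hk | hk | hk
    · exact hiit hI hk
    · exact hgenus hX (hM'.1 hk)
    · rcases hM'.2 hk (hn hk) with h1 | h1 | ⟨A, hA, h1⟩
      · exact hgenus hX h1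
      · exact hspecial hX h1
      · exact Class2.pull A X h1 (Class2.abelian A hA)

end two

end Pool.Agent.H64.LS
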