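import Pool.Agent.H64.LS.Core
import Pool.Agent.H64.FT.Slope

/-!
# Complete intersections, maps with small fibres, places of Tate type
-/

set_option autoImplicit false

open Matrix

namespace Pool.Agent.H64.LS

open Pool.Agent.H64.CC
open Pool.Agent.H64.FT (pj_apply pj_mul_apply mul_pj_apply pj_comm pj_zero_of pj_mul_pj pj_comm0
  mul_pj_eq_zero apply_of_mul_pj pj_mulVec inH_mulVec sum_pj pj_eq_zero ext_pj NS Fixed Stable
  SlopeSurface)

variable {K : Type} [Field K] [CharZero K] {W : Weil K}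

/-- SEC: complete intersections -/
theorem pure_sect (_hW : W.Calculus) {n m : ℕ} {V : W.Var n} {S : W.Var m} (s : Section W V S)
    {j : ℕ} (hj : j < W.dim S) (h : Pure W V j) : Pure W S j := by
  obtain ⟨ρ, hρ, hpρ, hinj⟩ := h
  have hd := s.dim_eq
  refine ⟨s.up * ρ * s.down, ?_, ?_, ?_⟩
  · have h1 := s.restrict _ ρ hρ
    have e : (j : ℤ) - W.dim V + s.r = (j : ℤ) - W.dim S := by omega
    rw [e] at h1
    exact h1
  · rw [← Matrix.mul_assoc, ← Matrix.mul_assoc, pj_comm s.up_deg j j (by ring),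
      Matrix.mul_assoc s.up, hpρ]
  · intro w hw h0
    rw [← Matrix.mulVec_mulVec, ← Matrix.mulVec_mulVec] at h0
    have hw1 : W.InH V (2 * W.dim V - j) (s.down *ᵥ w) := inH_shift s.down_deg (by omega) hw
    have hw2 : W.InH V j (ρ *ᵥ (s.down *ᵥ w)) := by
      rw [← hpρ, ← Matrix.mulVec_mulVec]
      exact inH_pj' j _
    have h1 := s.inj_up j hj.le _ hw2 h0
    have h2 := hinj _ hw1 h1
    exact s.inj_down (2 * W.dim S - j) (by omega) w hw h2

theorem alg_NS (hW : W.Calculus) {n : ℕ} {X Y : W.Var n} {f : W.Hom X Y} (hf : f ∈ W.cyc X Y 0)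
    {v : W.H X} (hv : v ∈ NS W X) : f *ᵥ v ∈ NS W Y := by
  unfold NS at hv
  induction hv using Submodule.span_induction with
  | mem x hx =>
    have h1 := hW.ap_mem X Y 0 1 f hf x hx
    rw [add_zero] at h1
    exact Submodule.subset_span h1
  | zero => rw [Matrix.mulVec_zero]; exact Submodule.zero_mem _
  | add x y _ _ h1 h2 => rw [Matrix.mulVec_add]; exact Submodule.add_mem _ h1 h2
  | smul c x _ h1 => rw [Matrix.mulVec_smul]; exact Submodule.smul_mem _ c h1

/-- OVR: maps with small fibres -/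
theorem crit_over (hW : W.Calculus) (hL : Cohomology W) {n : ℕ} {Z X : W.Var n}
    (h : Over W Z X) (hZ : Pure W Z 2) : Crit W X := by
  obtain ⟨h2, β, hβ, π, hπ, hsurj, hgen⟩ := h
  obtain ⟨L, hLZ⟩ := hL.nonempty Z
  obtain ⟨θ, hθ, hpθ, hθL⟩ := core hW hL h2 hZ hLZ
  have hLp := pow_cyc hW (hL.mem Z L hLZ) (W.dim Z - 2)
  refine ⟨β * θ * π, comp_cyc hW hπ (comp_cyc hW hθ hβ (by ring) :
    β * θ ∈ W.cyc Z X (((2 : ℕ) : ℤ) - W.dim Z)) (by push_cast; ring), fun u hu => ?_⟩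
  obtain ⟨z, hz, hzu⟩ := hgen u hu
  obtain ⟨y, hy, hy2⟩ := hsurj (L ^ (W.dim Z - 2) *ᵥ z)
    (inH_shift (hW.cyc_deg Z Z _ _ hLp) (by omega) hz)
  refine ⟨y, hy, ?_⟩
  have hy3 : π *ᵥ y = L ^ (W.dim Z - 2) *ᵥ z := hy2
  rw [← Matrix.mulVec_mulVec, hy3, ← Matrix.mulVec_mulVec, Matrix.mulVec_mulVec z, hθL,
    pj_mulVec 2 z hz]
  exact hzu

/-- a place of Tate type makes the fixed classes algebraic (after H16/FT/Key) -/
theorem TatePlace.fixed_alg {m : ℕ} {Y : W.Var m} {mon : Set (W.Hom Y Y)} (P : TatePlace W Y mon)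
    {y : W.H Y} (hy : W.InH Y 2 y) (hf : Fixed W mon y) : y ∈ NS W Y := by
  have hfix : ∀ g ∈ P.π, W.ap (P.ρ g) y = y := fun g hg => hf _ (P.mem g hg)
  refine P.tate _ P.dec_index y hy ?_
  have hN : P.π.Normal := ⟨P.normal⟩
  have hD : ∀ g ∈ P.Dec, W.ap (P.ρ g) y = y := by
    intro g hg
    have h1 := P.dec g hg y hy hfix
    have h2 : W.InH Y 2 (W.ap (P.ρ g) y - y) := by
      intro a ha
      by_cases h3 : y a = 0
      · exact inH_mulVec (P.deg g) hy a (by
          intro h4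
          apply ha
          rw [Pi.sub_apply, h3, sub_zero]
          exact h4)
      · exact hy a h3
    have h3 : ∀ p ∈ P.π, W.ap (P.ρ p) (W.ap (P.ρ g) y - y) = W.ap (P.ρ g) y - y := by
      intro p hp
      have h4 := P.normal p hp g⁻¹
      rw [inv_inv] at h4
      have h5 := hfix _ h4
      simp only [Weil.ap] at h5 ⊢
      rw [Matrix.mulVec_sub]
      have h6 := hfix p hp
      simp only [Weil.ap] at h6
      rw [h6]
      congr 1
      rw [Matrix.mulVec_mulVec, ← map_mul]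
      have e : p * g = g * (g⁻¹ * p * g) := by group
      rw [e, map_mul, ← Matrix.mulVec_mulVec, h5]
    have h7 := P.low_fixed _ h1 h2 h3
    exact sub_eq_zero.1 h7
  intro g hg
  rw [Subgroup.mem_sup_of_normal_left] at hg
  obtain ⟨p, hp, σ, hσ, rfl⟩ := hg
  have h1 := hD σ hσ
  have h2 := hfix p hp
  simp only [Weil.ap] at h1 h2 ⊢
  rw [map_mul, ← Matrix.mulVec_mulVec, h1, h2]

theorem invariant_of_tate {𝓕 : Fibrations W} {n : ℕ} {X : W.Var n} (h : TateType 𝓕 X) :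
    Invariant 𝓕 X := by
  obtain ⟨Y, f, ⟨P⟩⟩ := h
  exact ⟨Y, f, fun y hy hf => P.fixed_alg hy hf⟩

theorem invariant_of_slope {𝓕 : Fibrations W} {n : ℕ} {X : W.Var n} (h : Slope 𝓕 X) :
    Invariant 𝓕 X := by
  obtain ⟨Y, f, P⟩ := h
  exact ⟨Y, f, fun y hy hf => P.fixed_alg hy hf⟩

end Pool.Agent.H64.LS
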