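import Pool.Agent.H64.LS.Mu
import Pool.Agent.H64.LS.Sect
import Pool.Agent.H64.LS.All

/-!
# The criterion in degree 2 (after helper16, H16/FL/CRI)
-/

set_option autoImplicit false

open Matrix

namespace Pool.Agent.H64.LS

open Pool.Agent.H64.CC
open Pool.Agent.H64.FT (pj_apply pj_mul_apply mul_pj_apply pj_comm pj_zero_of pj_mul_pj pj_comm0
  mul_pj_eq_zero apply_of_mul_pj pj_mulVec inH_mulVec sum_pj pj_eq_zero ext_pj NS Fixed Stable
  SlopeSurface)

variable {K : Type} [Field K] [CharZero K] {W : Weil K}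

theorem inH_deg {n : ℕ} {X : W.Var n} {f : W.Hom X X} {r : ℤ} (hf : W.HasDeg r f) {i j : ℕ}
    (hij : (j : ℤ) = i + 2 * r) {v : W.H X} (hv : W.InH X i v) : W.InH X j (f *ᵥ v) := by
  intro b hb
  by_contra hne
  apply hb
  change ∑ a, f b a * v a = 0
  refine Finset.sum_eq_zero fun a _ => ?_
  by_cases h1 : f b a = 0
  · rw [h1, zero_mul]
  · by_cases h2 : v a = 0
    · rw [h2, mul_zero]
    · exfalso
      have := hf b a h1
      have := hv a h2
      omega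

theorem pow_mem (hW : W.Calculus) {n : ℕ} {X : W.Var n} {L : W.Hom X X} (hL : L ∈ W.cyc X X 1)
    (k : ℕ) : L ^ k ∈ W.cyc X X (k : ℤ) := by
  induction k with
  | zero => exact hW.one_mem X
  | succ k ih =>
    have h1 := hW.comp_mem X X X (k : ℤ) 1 _ ih _ hL
    rw [pow_succ']
    push_cast
    exact h1

theorem ns_inH (hW : W.Calculus) {n : ℕ} {X : W.Var n} {v : W.H X} (hv : v ∈ NS W X) :
    W.InH X 2 v := by
  unfold NS at hv
  induction hv using Submodule.span_induction with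
  | mem x hx =>
    intro a ha
    have := hW.alg_deg X 1 x hx a ha
    omega
  | zero => exact fun a ha => absurd rfl ha
  | add x y _ _ hx hy =>
    intro a ha
    by_cases h1 : x a = 0
    · refine hy a fun h2 => ha ?_
      rw [Pi.add_apply, h1, h2, add_zero]
    · exact hx a h1
  | smul q x _ hx =>
    intro a ha
    refine hx a fun h2 => ha ?_
    rw [Pi.smul_apply, h2, smul_zero]

/-- the subspace `Hⁱ(X)` -/
def HH (W : Weil K) {n : ℕ} (X : W.Var n) (i : ℕ) : Submodule K (W.H X) where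
  carrier := {v | W.InH X i v}
  zero_mem' := fun _ ha => absurd rfl ha
  add_mem' := by
    intro x y hx hy a ha
    by_cases h1 : x a = 0
    · refine hy a fun h2 => ha ?_
      rw [Pi.add_apply, h1, h2, add_zero]
    · exact hx a h1
  smul_mem' := by
    intro q x hx a ha
    refine hx a fun h2 => ha ?_
    rw [Pi.smul_apply, h2, smul_zero]

/-- the map `ρ₀` is surjective -/
theorem surj (hW : W.Calculus) {n : ℕ} {X : W.Var n} {P μ θ : W.Hom X X}
    (hd : 2 ≤ W.dim X) (hP : P ∈ W.cyc X X ((W.dim X : ℤ) - 2))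
    (_hμ : μ ∈ W.cyc X X ((2 : ℤ) - W.dim X)) (hθ : θ ∈ W.cyc X X ((2 : ℤ) - W.dim X))
    (h1 : ∀ v ∈ NS W X, μ *ᵥ (P *ᵥ v) = v) (h2 : ∀ y, μ *ᵥ y ∈ NS W X)
    (h3 : ∀ u, W.InH X 2 u → ∃ y, W.InH X (2 * W.dim X - 2) y ∧ u - θ *ᵥ y ∈ NS W X)
    {u : W.H X} (hu : W.InH X 2 u) :
    ∃ z, W.InH X (2 * W.dim X - 2) z ∧ (μ + (1 - μ * P) * θ * (1 - P * μ)) *ᵥ z = u := by
  obtain ⟨y, hy, hn⟩ := h3 u hu
  have hPdeg : ∀ v, W.InH X 2 v → W.InH X (2 * W.dim X - 2) (P *ᵥ v) := fun v hv =>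
    inH_deg (hW.cyc_deg X X _ P hP) (by omega) hv
  have h4 : θ *ᵥ (P *ᵥ (μ *ᵥ y)) ∈ NS W X := by
    have h5 := hW.comp_mem X X X _ _ P hP θ hθ
    rw [show ((W.dim X : ℤ) - 2) + (2 - W.dim X) = 0 by ring] at h5
    have h6 := alg_NS hW h5 (v := μ *ᵥ y) (h2 y)
    rw [show W.comp θ P = θ * P from rfl, ← Matrix.mulVec_mulVec] at h6
    exact h6
  refine ⟨(y - P *ᵥ (μ *ᵥ y)) + P *ᵥ (μ *ᵥ (P *ᵥ u)), ?_, ?_⟩
  · refine (HH W X _).add_mem ((HH W X _).sub_mem hy ?_) ?_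
    · exact hPdeg _ (ns_inH hW (h2 y))
    · exact hPdeg _ (ns_inH hW (h2 _))
  · have e1 : μ *ᵥ ((y - P *ᵥ (μ *ᵥ y)) + P *ᵥ (μ *ᵥ (P *ᵥ u))) = μ *ᵥ (P *ᵥ u) := by
      rw [Matrix.mulVec_add, Matrix.mulVec_sub, h1 _ (h2 y), h1 _ (h2 _), sub_self, zero_add]
    have e2 : μ *ᵥ (P *ᵥ (u - θ *ᵥ y)) = u - θ *ᵥ y := h1 _ hn
    rw [Matrix.mulVec_sub, Matrix.mulVec_sub] at e2
    rw [Matrix.add_mulVec, e1, mul_assoc, ← Matrix.mulVec_mulVec, ← Matrix.mulVec_mulVec,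
      Matrix.sub_mulVec 1 (P * μ), Matrix.one_mulVec, ← Matrix.mulVec_mulVec, e1,
      add_sub_cancel_right, Matrix.mulVec_sub, Matrix.sub_mulVec, Matrix.one_mulVec,
      ← Matrix.mulVec_mulVec, Matrix.mulVec_sub, Matrix.mulVec_sub, h1 _ h4]
    have e3 : μ *ᵥ (P *ᵥ (θ *ᵥ y)) = μ *ᵥ (P *ᵥ u) - (u - θ *ᵥ y) := by
      rw [← e2]
      abel
    rw [e3]
    abel

theorem pure_of_crit (hLef : Cohomology W) {n : ℕ} {X : W.Var n} (hd : 2 ≤ W.dim X)
    (hC : Crit W X) : Pure W X 2 := by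
  have hW := hLef.calculus
  obtain ⟨L, hL⟩ := hLef.nonempty X
  obtain ⟨θ, hθ, h3⟩ := hC
  have hP : L ^ (W.dim X - 2) ∈ W.cyc X X ((W.dim X : ℤ) - 2) := by
    have := pow_mem hW (hLef.mem X L hL) (W.dim X - 2)
    rwa [Nat.cast_sub hd] at this
  obtain ⟨μ, hμ, h1, h2⟩ := exists_mu hW X hP (hLef.index X hd L hL)
  set P := L ^ (W.dim X - 2) with hPdef
  set ρ₀ := μ + (1 - μ * P) * θ * (1 - P * μ) with hρ₀
  have hone : (1 : W.Hom X X) ∈ W.cyc X X 0 := hW.one_mem X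
  have hmul0 : ∀ (r : ℤ) (f g : W.Hom X X), f ∈ W.cyc X X 0 → g ∈ W.cyc X X r →
      f * g ∈ W.cyc X X r := by
    intro r f g hf hg
    have := hW.comp_mem X X X r 0 g hg f hf
    rwa [add_zero] at this
  have hmul0' : ∀ (r : ℤ) (f g : W.Hom X X), f ∈ W.cyc X X r → g ∈ W.cyc X X 0 →
      f * g ∈ W.cyc X X r := by
    intro r f g hf hg
    have := hW.comp_mem X X X 0 r g hg f hf
    rwa [zero_add] at this
  have hρ₀m : ρ₀ ∈ W.cyc X X ((2 : ℤ) - W.dim X) := by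
    have hμP : μ * P ∈ W.cyc X X 0 := by
      have := hW.comp_mem X X X _ _ P hP μ hμ
      rwa [show ((W.dim X : ℤ) - 2) + (2 - W.dim X) = 0 by ring] at this
    have hPμ : P * μ ∈ W.cyc X X 0 := by
      have := hW.comp_mem X X X _ _ μ hμ P hP
      rwa [show ((2 : ℤ) - W.dim X) + ((W.dim X : ℤ) - 2) = 0 by ring] at this
    exact Submodule.add_mem _ hμ (hmul0' _ _ _ (hmul0 _ _ _ (Submodule.sub_mem _ hone hμP) hθ)
      (Submodule.sub_mem _ hone hPμ))
  have hp0 := pj_low hLef X (i := 0) (by omega)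
  have hp1 := pj_low hLef X (i := 1) (by omega)
  have hq0 : W.pj X (2 * W.dim X) ∈ W.cyc X X 0 := by
    have := hLef.dual X 0 (by omega) hp0
    rwa [Nat.sub_zero] at this
  have hq1 : W.pj X (2 * W.dim X - 1) ∈ W.cyc X X 0 := hLef.dual X 1 (by omega) hp1
  set A : W.Hom X X := 1 - W.pj X 0 - W.pj X 1 with hA
  set B : W.Hom X X := 1 - W.pj X (2 * W.dim X) - W.pj X (2 * W.dim X - 1) with hB
  have hAm : A ∈ W.cyc X X 0 := Submodule.sub_mem _ (Submodule.sub_mem _ hone hp0) hp1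
  have hBm : B ∈ W.cyc X X 0 := Submodule.sub_mem _ (Submodule.sub_mem _ hone hq0) hq1
  have hdeg := hW.cyc_deg X X _ ρ₀ hρ₀m
  have hAρ : ∀ b a, (A * ρ₀) b a = if W.deg X b = 0 ∨ W.deg X b = 1 then 0 else ρ₀ b a := by
    intro b a
    rw [hA, sub_mul, sub_mul, one_mul, Matrix.sub_apply, Matrix.sub_apply,
      pj_mul_apply, pj_mul_apply]
    by_cases h0 : W.deg X b = 0
    · rw [if_pos h0, if_neg (by omega), if_pos (Or.inl h0)]
      ring
    · by_cases h1 : W.deg X b = 1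
      · rw [if_neg h0, if_pos h1, if_pos (Or.inr h1)]
        ring
      · rw [if_neg h0, if_neg h1, if_neg (by omega)]
        ring
  have hAρB : ∀ b a, (A * ρ₀ * B) b a = if W.deg X a = 2 * W.dim X ∨ W.deg X a = 2 * W.dim X - 1
      then 0 else (A * ρ₀) b a := by
    intro b a
    rw [hB, mul_sub, mul_sub, mul_one, Matrix.sub_apply, Matrix.sub_apply,
      mul_pj_apply, mul_pj_apply]
    by_cases h0 : W.deg X a = 2 * W.dim X
    · rw [if_pos h0, if_neg (by omega), if_pos (Or.inl h0)]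
      ring
    · by_cases h1 : W.deg X a = 2 * W.dim X - 1
      · rw [if_neg h0, if_pos h1, if_pos (Or.inr h1)]
        ring
      · rw [if_neg h0, if_neg h1, if_neg (by omega)]
        ring
  refine ⟨A * ρ₀ * B, hmul0' _ _ _ (hmul0 _ _ _ hAm hρ₀m) hBm, ?_, ?_⟩
  · ext b a
    rw [pj_mul_apply]
    split_ifs with hb
    · rfl
    · rw [eq_comm, hAρB, hAρ]
      split_ifs with h4 h5
      · rfl
      · rfl
      · by_contra h6
        have h7 := hdeg b a h6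
        have h8 := hW.deg_le X a
        omega
  · -- injectivity
    have hBw : ∀ w, W.InH X (2 * W.dim X - 2) w → B *ᵥ w = w := by
      intro w hw
      have e1 : W.pj X (2 * W.dim X) *ᵥ w = 0 := by
        rw [← pj_mulVec _ w hw, Matrix.mulVec_mulVec, pj_mul_pj, if_neg (by omega),
          Matrix.zero_mulVec]
      have e2 : W.pj X (2 * W.dim X - 1) *ᵥ w = 0 := by
        rw [← pj_mulVec _ w hw, Matrix.mulVec_mulVec, pj_mul_pj, if_neg (by omega),
          Matrix.zero_mulVec]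
      rw [hB, Matrix.sub_mulVec, Matrix.sub_mulVec, e1, e2, Matrix.one_mulVec, sub_zero, sub_zero]
    have hAu : ∀ u, W.InH X 2 u → A *ᵥ u = u := by
      intro w hw
      have e1 : W.pj X 0 *ᵥ w = 0 := by
        rw [← pj_mulVec _ w hw, Matrix.mulVec_mulVec, pj_mul_pj, if_neg (by omega),
          Matrix.zero_mulVec]
      have e2 : W.pj X 1 *ᵥ w = 0 := by
        rw [← pj_mulVec _ w hw, Matrix.mulVec_mulVec, pj_mul_pj, if_neg (by omega),
          Matrix.zero_mulVec]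
      rw [hA, Matrix.sub_mulVec, Matrix.sub_mulVec, e1, e2, Matrix.one_mulVec, sub_zero, sub_zero]
    have hρdeg : ∀ w, W.InH X (2 * W.dim X - 2) w → W.InH X 2 (ρ₀ *ᵥ w) := fun w hw =>
      inH_deg hdeg (by omega) hw
    have hPdeg : ∀ v, W.InH X 2 v → W.InH X (2 * W.dim X - 2) (P *ᵥ v) := fun v hv =>
      inH_deg (hW.cyc_deg X X _ P hP) (by omega) hv
    let T : HH W X 2 →ₗ[K] HH W X 2 :=
      { toFun := fun v => ⟨ρ₀ *ᵥ (P *ᵥ v.1), hρdeg _ (hPdeg _ v.2)⟩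
        map_add' := fun x y => by
          apply Subtype.ext
          change ρ₀ *ᵥ (P *ᵥ (x.1 + y.1)) = ρ₀ *ᵥ (P *ᵥ x.1) + ρ₀ *ᵥ (P *ᵥ y.1)
          rw [Matrix.mulVec_add, Matrix.mulVec_add]
        map_smul' := fun c x => by
          apply Subtype.ext
          change ρ₀ *ᵥ (P *ᵥ (c • x.1)) = c • (ρ₀ *ᵥ (P *ᵥ x.1))
          rw [Matrix.mulVec_smul, Matrix.mulVec_smul] }
    have hTs : Function.Surjective T := by
      rintro ⟨u, hu⟩
      obtain ⟨z, hz, hz'⟩ := surj hW hd hP hμ hθ h1 h2 h3 hu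
      obtain ⟨v, hv, hv'⟩ := hLef.surj X L hL 2 hd z hz
      refine ⟨⟨v, hv⟩, Subtype.ext ?_⟩
      change ρ₀ *ᵥ (P *ᵥ v) = u
      have : P *ᵥ v = z := hv'
      rw [this]
      exact hz'
    have hTi : Function.Injective T := LinearMap.injective_iff_surjective.2 hTs
    intro w hw hw0
    rw [← Matrix.mulVec_mulVec, hBw w hw, ← Matrix.mulVec_mulVec, hAu _ (hρdeg w hw)] at hw0
    obtain ⟨v, hv, hv'⟩ := hLef.surj X L hL 2 hd w hw
    have hv'' : P *ᵥ v = w := hv'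
    have h5 : T ⟨v, hv⟩ = T 0 := by
      apply Subtype.ext
      rw [map_zero]
      change ρ₀ *ᵥ (P *ᵥ v) = 0
      rw [hv'']
      exact hw0
    have h6 : v = 0 := congrArg Subtype.val (hTi h5)
    rw [← hv'', h6, Matrix.mulVec_zero]

end Pool.Agent.H64.LS
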