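import Pool.Agent.H64.LS.Str

/-!
# The hard Lefschetz theorem for the sum of two commuting operators
-/

set_option autoImplicit false

namespace Pool.Agent.H64.LS

variable {K : Type} [Field K] [CharZero K] {V : Type} [AddCommGroup V] [Module K V]

theorem pow_deg {T : Module.End K V} {F : ℤ → Submodule K V}
    (hT : ∀ k, ∀ v ∈ F k, T v ∈ F (k + 2)) (n : ℕ) :
    ∀ k, ∀ v ∈ F k, (T ^ n) v ∈ F (k + 2 * n) := by
  induction n with
  | zero =>
    intro k v hv
    simpa using hv
  | succ n ih =>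
    intro k v hv
    rw [pow_succ, Module.End.mul_apply]
    have h1 := ih (k + 2) (T v) (hT k v hv)
    rwa [show k + 2 + 2 * (n : ℤ) = k + 2 * ((n + 1 : ℕ) : ℤ) by push_cast; ring] at h1

/-- the primitive decomposition -/
theorem one_dec {T : Module.End K V} {F : ℤ → Submodule K V}
    (hT : ∀ k, ∀ v ∈ F k, T v ∈ F (k + 2))
    (hTs : ∀ (n : ℕ), ∀ y ∈ F n, ∃ x ∈ F (-n), (T ^ n) x = y) (B : ℕ)
    (hb : ∀ k < -(B : ℤ), F k = ⊥) :
    ∀ k, ∀ x ∈ F k, x ∈ Submodule.span K {v | ∃ (b u : ℕ) (z : V), z ∈ F (-b) ∧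
      (T ^ (b + 1)) z = 0 ∧ -(b : ℤ) + 2 * u = k ∧ v = (T ^ u) z} := by
  have hneg : ∀ d n : ℕ, B + 1 - n ≤ d → ∀ x ∈ F (-(n : ℤ)),
      x ∈ Submodule.span K {v | ∃ (b u : ℕ) (z : V), z ∈ F (-b) ∧
      (T ^ (b + 1)) z = 0 ∧ -(b : ℤ) + 2 * u = -(n : ℤ) ∧ v = (T ^ u) z} := by
    intro d
    induction d with
    | zero =>
      intro n hn x hx
      rw [hb _ (by omega), Submodule.mem_bot] at hx
      rw [hx]
      exact Submodule.zero_mem _
    | succ d ih =>
      intro n hn x hx
      by_cases hnB : B < n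
      · rw [hb _ (by omega), Submodule.mem_bot] at hx
        rw [hx]
        exact Submodule.zero_mem _
      have h1 : (T ^ (n + 1)) x ∈ F ((n + 2 : ℕ) : ℤ) := by
        have h2 := pow_deg hT (n + 1) _ x hx
        rwa [show -(n : ℤ) + 2 * ((n + 1 : ℕ) : ℤ) = ((n + 2 : ℕ) : ℤ) by push_cast; ring] at h2
      obtain ⟨y, hy, hy2⟩ := hTs (n + 2) _ h1
      have hTy : T y ∈ F (-(n : ℤ)) := by
        have h2 := hT _ y hy
        rwa [show -((n + 2 : ℕ) : ℤ) + 2 = -(n : ℤ) by push_cast; ring] at h2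
      have h3 := ih (n + 2) (by omega) y hy
      have h4 : T y ∈ Submodule.span K {v | ∃ (b u : ℕ) (z : V), z ∈ F (-b) ∧
          (T ^ (b + 1)) z = 0 ∧ -(b : ℤ) + 2 * u = -(n : ℤ) ∧ v = (T ^ u) z} := by
        clear hTy hy2 hy
        induction h3 using Submodule.span_induction with
        | mem v hv =>
          obtain ⟨b, u, z, hz, hz2, hbu, rfl⟩ := hv
          refine Submodule.subset_span ⟨b, u + 1, z, hz, hz2, ?_, ?_⟩
          · push_cast at hbu ⊢
            linarith
          · rw [pow_succ', Module.End.mul_apply]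
        | zero => rw [map_zero]; exact Submodule.zero_mem _
        | add x y _ _ h1 h2 => rw [map_add]; exact Submodule.add_mem _ h1 h2
        | smul c x _ h1 => rw [map_smul]; exact Submodule.smul_mem _ c h1
      have h5 : x = (x - T y) + T y := by abel
      rw [h5]
      refine Submodule.add_mem _ (Submodule.subset_span ⟨n, 0, x - T y, ?_, ?_, by simp, ?_⟩) h4
      · exact Submodule.sub_mem _ hx hTy
      · rw [map_sub, ← Module.End.mul_apply, ← pow_succ, hy2, sub_self]
      · rw [pow_zero, Module.End.one_apply]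
  intro k x hx
  rcases le_total k 0 with hk | hk
  · obtain ⟨n, rfl⟩ : ∃ n : ℕ, k = -(n : ℤ) := ⟨(-k).toNat, by omega⟩
    exact hneg _ n le_rfl x hx
  · obtain ⟨n, rfl⟩ : ∃ n : ℕ, k = (n : ℤ) := ⟨k.toNat, by omega⟩
    obtain ⟨y, hy, rfl⟩ := hTs n x hx
    have h3 := hneg _ n le_rfl y hy
    clear hx hy
    induction h3 using Submodule.span_induction with
    | mem v hv =>
      obtain ⟨b, u, z, hz, hz2, hbu, rfl⟩ := hv
      refine Submodule.subset_span ⟨b, n + u, z, hz, hz2, ?_, ?_⟩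
      · push_cast
        linarith
      · rw [pow_add, Module.End.mul_apply]
    | zero => rw [map_zero]; exact Submodule.zero_mem _
    | add x y _ _ h1 h2 => rw [map_add]; exact Submodule.add_mem _ h1 h2
    | smul c x _ h1 => rw [map_smul]; exact Submodule.smul_mem _ c h1

/-- DBL -/
theorem double {M N : Module.End K V} (hMN : Commute M N) {E : ℤ → ℤ → Submodule K V}
    (hN : ∀ j k, ∀ v ∈ E j k, N v ∈ E (j + 2) k) (hM : ∀ j k, ∀ v ∈ E j k, M v ∈ E j (k + 2))
    (hNs : ∀ (n : ℕ) (k : ℤ), ∀ y ∈ E n k, ∃ x ∈ E (-n) k, (N ^ n) x = y)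
    (hMs : ∀ (j : ℤ) (n : ℕ), ∀ y ∈ E j n, ∃ x ∈ E j (-n), (M ^ n) x = y)
    (hMi : ∀ (j : ℤ) (n : ℕ), ∀ x ∈ E j (-n), (M ^ n) x = 0 → x = 0) (B : ℕ)
    (hbN : ∀ j k, j < -(B : ℤ) → E j k = ⊥) (hbM : ∀ j k, k < -(B : ℤ) → E j k = ⊥)
    {H : ℤ → Submodule K V} (hH : ∀ j k, E j k ≤ H (j + k)) (m : ℕ) {j k : ℤ} (hjk : j + k = m)
    {y : V} (hy : y ∈ E j k) : ∃ x ∈ H (-m), ((M + N) ^ m) x = y := by
  have hmap : y ∈ Submodule.map ((M + N) ^ m) (H (-m)) := by
    have h1 := one_dec (T := N) (F := fun j => E j k) (fun j v hv => hN j k v hv)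
      (fun n y hy => hNs n k y hy) B (fun j hj => hbN j k hj) j y hy
    clear hy
    induction h1 using Submodule.span_induction with
    | zero => exact Submodule.zero_mem _
    | add x y _ _ h1 h2 => exact Submodule.add_mem _ h1 h2
    | smul c x _ h1 => exact Submodule.smul_mem _ c h1
    | mem v hv =>
      obtain ⟨q, a, p, hp, hp0, hqa, rfl⟩ := hv
      -- the primitive part
      have hpN : ∀ (k : ℤ) (x : V), x ∈ E (-q) k → (N ^ (q + 1)) x ∈ E (q + 2) k := by
        intro k x hx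
        have h2 := pow_deg (F := fun j => E j k) (T := N) (fun j v hv => hN j k v hv) (q + 1) _ x hx
        have e : -(q : ℤ) + 2 * ((q + 1 : ℕ) : ℤ) = (q : ℤ) + 2 := by push_cast; ring
        rw [e] at h2
        exact h2
      have h2 := one_dec (T := M) (F := fun k => E (-q) k ⊓ LinearMap.ker (N ^ (q + 1)))
        (fun k v hv => ⟨hM _ k v hv.1, by
          have h3 : (N ^ (q + 1)) v = 0 := hv.2
          show (N ^ (q + 1)) (M v) = 0
          rw [← Module.End.mul_apply, (hMN.pow_right (q + 1)).symm.eq,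
            Module.End.mul_apply, h3, map_zero]⟩)
        (fun n y hy => by
          obtain ⟨x, hx, hxy⟩ := hMs (-q) n y hy.1
          refine ⟨x, ⟨hx, ?_⟩, hxy⟩
          show (N ^ (q + 1)) x = 0
          refine hMi _ n _ (hpN _ x hx) ?_
          rw [← Module.End.mul_apply, (hMN.pow_pow n (q + 1)).eq, Module.End.mul_apply, hxy]
          exact LinearMap.mem_ker.1 hy.2) B
        (fun k hk => by rw [hbM _ k hk, bot_inf_eq]) k p ⟨hp, hp0⟩
      clear hp hp0
      induction h2 using Submodule.span_induction with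
      | zero => rw [map_zero]; exact Submodule.zero_mem _
      | add x y _ _ h1 h2 => rw [map_add]; exact Submodule.add_mem _ h1 h2
      | smul c x _ h1 => rw [map_smul]; exact Submodule.smul_mem _ c h1
      | mem v hv =>
        obtain ⟨b, u, z, hz, hzM, hbu, rfl⟩ := hv
        have hzN : (N ^ (q + 1)) z = 0 := LinearMap.mem_ker.1 hz.2
        rw [← Module.End.mul_apply]
        by_cases hau : a + u ≤ q + b
        · obtain ⟨i, hi⟩ : ∃ i, i = q + b - (a + u) := ⟨_, rfl⟩
          have h2i : 2 * i ≤ q + b := by omega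
          obtain ⟨x, hx, hxy⟩ := string_surj hMN hzN hzM h2i (a := a) (u := u) (by omega)
          rw [show q + b - 2 * i = m by omega] at hxy
          refine ⟨x, ?_, hxy⟩
          refine (Submodule.span_le.2 ?_) hx
          rintro _ ⟨c, hc, rfl⟩
          have h3 : (M ^ (i - c)) z ∈ E (-q) (-(b : ℤ) + 2 * ((i - c : ℕ) : ℤ)) :=
            pow_deg (F := fun k => E (-q) k) (T := M) (fun k v hv => hM _ k v hv) (i - c) _ z hz.1
          have h4 := pow_deg (F := fun j => E j (-(b : ℤ) + 2 * ((i - c : ℕ) : ℤ))) (T := N)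
            (fun j v hv => hN j _ v hv) c _ _ h3
          have h5 := hH _ _ h4
          rw [Module.End.mul_apply]
          have e : -(q : ℤ) + 2 * (c : ℤ) + (-(b : ℤ) + 2 * ((i - c : ℕ) : ℤ)) = -(m : ℤ) := by
            omega
          rw [e] at h5
          exact h5
        · have h3 : (N ^ a * M ^ u) z = 0 := by
            by_cases hu : b < u
            · obtain ⟨u', rfl⟩ : ∃ u', u = u' + (b + 1) := ⟨u - (b + 1), by omega⟩
              rw [pow_add M, Module.End.mul_apply, Module.End.mul_apply, hzM, map_zero, map_zero]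
            · obtain ⟨a', rfl⟩ : ∃ a', a = a' + (q + 1) := ⟨a - (q + 1), by omega⟩
              rw [pow_add, mul_assoc, (hMN.pow_pow u (q + 1)).symm.eq, ← mul_assoc,
                Module.End.mul_apply, Module.End.mul_apply, hzN, map_zero, map_zero]
          rw [h3]
          exact Submodule.zero_mem _
  obtain ⟨x, hx, hxy⟩ := hmap
  exact ⟨x, hx, hxy⟩

end Pool.Agent.H64.LS
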