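import Pool.Agent.H64.FT.SlopeDefs

/-!
# The Lefschetz standard conjecture for fibred varieties: definitions
-/

set_option autoImplicit false

namespace Pool.Agent.H64.LS

open Pool.Agent.H64.CC Pool.Agent.H64.FT

variable {K K' : Type} [Field K] [CharZero K] [Field K'] [CharZero K']

/-- `Hⁱ(X) = 0` -/
def Vanishes (W : Weil K) {n : ℕ} (X : W.Var n) (i : ℕ) : Prop := ∀ v, W.InH X i v → v = 0

/-- `H²(X)` is generated by the classes of divisors -/
def AllDivisors (W : Weil K) {n : ℕ} (X : W.Var n) : Prop := ∀ v, W.InH X 2 v → v ∈ NS W X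

/-- `φ` is the functional on `H(X)` given by the intersection numbers with a divisor on `X`: for a
divisor `v` the map `x ↦ φ(x) v` is the correspondence given by the product of the two divisors -/
def IsDivisor (W : Weil K) {n : ℕ} (X : W.Var n) (φ : W.H X) : Prop :=
  ∀ v ∈ W.alg X 1, Matrix.vecMulVec v φ ∈ W.cyc X X ((2 : ℤ) - W.dim X)

/-- The ample line bundles on `X`, with rational coefficients (the positive rational multiples of an
ample line bundle are allowed), and the hard Lefschetz theorem -/
structure HardLefschetz (W : Weil K) {n : ℕ} (X : W.Var n) : Prop where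
  nonempty : (W.Lef X).Nonempty
  mem : ∀ L ∈ W.Lef X, L ∈ W.cyc X X 1
  inj : ∀ L ∈ W.Lef X, ∀ i ≤ W.dim X, ∀ v, W.InH X i v →
    W.ap (W.pw L (W.dim X - i)) v = 0 → v = 0
  surj : ∀ L ∈ W.Lef X, ∀ i ≤ W.dim X, ∀ v,
    W.InH X (2 * W.dim X - i) v → ∃ u, W.InH X i u ∧ W.ap (W.pw L (W.dim X - i)) u = v

/-- A Weil cohomology. With `d = dim X`:

* the calculus of correspondences; `dim_prod`, `deg_prod`, `ext_mem`: products;
* `hard`: the hard Lefschetz theorem;
* `dual`: the transpose of the `i`-th Künneth projector for the Poincaré duality is the projector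
  of degree `2d - i`;
* `low`: the Lefschetz standard conjecture holds in the degrees `0` and `1` (Kleiman), from the theory
  of the Picard and Albanese varieties;
* `index`: the form `D D' L ^ (d - 2)` on the divisors modulo homological equivalence is
  non-degenerate, by the Hodge index theorem and the theorem of Matsusaka. -/
structure Cohomology (W : Weil K) : Prop where
  calculus : W.Calculus
  dim_prod : ∀ {n : ℕ} (X Y : W.Var n), W.dim (W.prod X Y) = W.dim X + W.dim Y
  deg_prod : ∀ {n : ℕ} (X Y : W.Var n) (a : Fin (W.rk X)) (b : Fin (W.rk Y)),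
    W.deg (W.prod X Y) (W.pr X Y (a, b)) = W.deg X a + W.deg Y b
  ext_mem : ∀ {n : ℕ} (X Y : W.Var n) (r s : ℤ), ∀ f ∈ W.cyc X X r, ∀ g ∈ W.cyc Y Y s,
    W.ext f g ∈ W.cyc (W.prod X Y) (W.prod X Y) (r + s)
  hard : ∀ {n : ℕ} (X : W.Var n), HardLefschetz W X
  dual : ∀ {n : ℕ} (X : W.Var n), ∀ i ≤ 2 * W.dim X, W.pj X i ∈ W.cyc X X 0 →
    W.pj X (2 * W.dim X - i) ∈ W.cyc X X 0
  low : ∀ {n : ℕ} (X : W.Var n), W.BDeg X 0 ∧ W.BDeg X 1
  index : ∀ {n : ℕ} (X : W.Var n), 2 ≤ W.dim X → ∀ L ∈ W.Lef X, ∀ v ∈ W.alg X 1, v ≠ 0 →
    ∃ φ, IsDivisor W X φ ∧ φ ⬝ᵥ W.ap (W.pw L (W.dim X - 2)) v ≠ 0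

/-- The data of the fibrations over curves, for a Weil cohomology `W`:

* `Fib X Y`, where `X` is a variety over `F n` and `Y` is a variety over `F (n + 1)`: the morphisms
  `f` from `X` to a curve `C` with geometric generic fibre `Y`, with a non-empty affine open subset
  `U` of `C` over which `f` is smooth (`F (n + 1)` is identified with the algebraic closure of the
  function field of `C`);
* `res`: the restriction `H(X) → H(Y)`;
* `mon`: the monodromy group of `f` over `U`, acting on `H(Y)` (for `ℓ`-adic cohomology the image of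
  the fundamental group of `U`; for crystalline cohomology the Tannakian monodromy group of the
  overconvergent isocrystal `H(Y)`, with `K` large) -/
structure Fibrations (W : Weil K) where
  Fib : ∀ {n : ℕ}, W.Var n → W.Var (n + 1) → Type
  res : ∀ {n : ℕ} {X : W.Var n} {Y : W.Var (n + 1)}, Fib X Y → W.Hom X Y
  mon : ∀ {n : ℕ} {X : W.Var n} {Y : W.Var (n + 1)}, Fib X Y → Set (W.Hom Y Y)

/-- The properties of a fibration `f` over a curve:

* the restriction and the monodromy group preserve the degree, and the classes in the image of the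
  restriction are fixed by the group;
* `spread`: let `M` be the product with an ample class on `X` and `L` its restriction to `Y`. A
  correspondence `l` on `Y`, of degree `-2k`, which commutes with the monodromy group is defined over
  the function field of `C`. Let `Λ` be its closure in the fibre product of `X` with itself over `C`.
  By the Leray spectral sequence over `U` the kernel of the restriction from `H²(X)` to `H²(Y)` is,
  modulo the classes of the components of the fibres outside `U`, contained in `H¹(U, H¹(Y))`. So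
  `Λ M ^ k` acts on it as the constant `c`, modulo divisors, if `l L ^ k` is equal to `c` on `H¹(Y)`;
* `lift`: a combination of classes of divisors on `Y` which is fixed by the monodromy group is the
  restriction of a combination of classes of divisors on `X`; for the group acts on the classes of
  divisors through a finite group, and a divisor over the function field of `C` has a closure in
  `X`. -/
structure Fibrations.Theory {W : Weil K} (𝓕 : Fibrations W) {n : ℕ} {X : W.Var n}
    {Y : W.Var (n + 1)} (f : 𝓕.Fib X Y) : Prop where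
  dim_eq : W.dim X = W.dim Y + 1
  res_deg : W.HasDeg 0 (𝓕.res f)
  mon_deg : ∀ g ∈ 𝓕.mon f, W.HasDeg 0 g
  fixed : ∀ g ∈ 𝓕.mon f, W.comp g (𝓕.res f) = 𝓕.res f
  spread : ∃ M ∈ W.Lef X, ∃ L ∈ W.Lef Y, (∀ g ∈ 𝓕.mon f, W.comp g L = W.comp L g) ∧
    ∀ (k : ℕ), ∀ l ∈ W.cyc Y Y (-(k : ℤ)), (∀ g ∈ 𝓕.mon f, W.comp g l = W.comp l g) →
      ∃ Λ ∈ W.cyc X X (-(k : ℤ)), ∀ c : K,
        W.comp (W.comp l (W.pw L k)) (W.pj Y 1) = c • W.pj Y 1 →
        ∀ x, W.InH X 2 x → W.ap (𝓕.res f) x = 0 →
          W.ap (W.comp Λ (W.pw M k)) x - c • x ∈ NS W X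
  lift : ∀ y ∈ NS W Y, Fixed W (𝓕.mon f) y → ∃ x ∈ NS W X, W.ap (𝓕.res f) x = y

/-- `X` has a fibration over a curve, with geometric generic fibre `Y`, and the classes in `H²(Y)`
which are fixed by the monodromy group are combinations of classes of divisors -/
def Invariant {W : Weil K} (𝓕 : Fibrations W) {n : ℕ} (X : W.Var n) : Prop :=
  ∃ (Y : W.Var (n + 1)) (f : 𝓕.Fib X Y), ∀ y, W.InH Y 2 y → Fixed W (𝓕.mon f) y → y ∈ NS W Y

/-- `X` has a fibration over a curve whose geometric generic fibre `Y` is a surface as in
`SlopeSurface` -/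
def Slope {W : Weil K} (𝓕 : Fibrations W) {n : ℕ} (X : W.Var n) : Prop :=
  ∃ (Y : W.Var (n + 1)) (f : 𝓕.Fib X Y), SlopeSurface W Y (𝓕.mon f)

/-- Let `Y` be the geometric generic fibre of a fibration over a curve, with the monodromy group
`mon`, for which the Tate conjecture for divisors is known. It is defined over a finitely generated
field `K₀ = k₀(C₀)`, where `C₀` is a curve over the finitely generated field `k₀ ⊂ F n`:

* `G` is the Galois group of `K₀` and `π` is the Galois group of the compositum of `K₀` and of `F n`;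
  `ρ` is the representation of `G` on `H(Y)`, in degree `2` on `H²(Y)(1)`; `tate` is the Tate
  conjecture for divisors: a class in `H²(Y)(1)` which is fixed by a subgroup of finite index is a
  combination of classes of divisors;
* for a place `c` of `C₀` of semistable reduction `low` is the part of `H²(Y)(1)` of negative weight
  in the monodromy filtration. The classes which are fixed by `π` are unramified at `c` and pure of
  weight `0`, so they do not meet `low`. The place is of Tate type: an open subgroup `Dec` of the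
  decomposition group acts trivially on the graded piece of weight `0` of the part of `H²(Y)(1)`
  fixed by the inertia group. This is so if `Y` is dominated by the product of a curve with totally
  degenerate reduction at `c`, for example an elliptic curve whose `j`-invariant has a pole at `c`,
  and of a curve with semistable reduction; for this graded piece comes from the toric parts of the
  reductions of the Jacobians, on which Frobenius acts through a finite group;
* it is also so, with another subspace `low`, if `Y` is the product of two curves `S₁` and `S₂` and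
  the images of the logarithms of the tame inertia, at one or several places, generate `H¹(S₁)` as a
  representation of `π`. Then `Dec` is the intersection of the groups generated by `π` and by small
  open subgroups of the decomposition groups of these places, and `low` consists of the classes in
  `H¹(S₁) ⊗ H¹(S₂)` which define a map from `H¹(S₁)` to `H¹(S₂)` which is zero on these images. -/
structure TatePlace (W : Weil K) {m : ℕ} (Y : W.Var m) (mon : Set (W.Hom Y Y)) where
  G : Type
  [grp : Group G]
  π : Subgroup G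
  ρ : G →* W.Hom Y Y
  Dec : Subgroup G
  low : Submodule K (W.H Y)
  normal : ∀ p ∈ π, ∀ g : G, g * p * g⁻¹ ∈ π
  deg : ∀ g, W.HasDeg 0 (ρ g)
  mem : ∀ g ∈ π, ρ g ∈ mon
  tate : ∀ G' : Subgroup G, G'.FiniteIndex → ∀ y, W.InH Y 2 y → (∀ g ∈ G', W.ap (ρ g) y = y) →
    y ∈ NS W Y
  dec_index : (π ⊔ Dec).FiniteIndex
  low_fixed : ∀ y ∈ low, W.InH Y 2 y → (∀ g ∈ π, W.ap (ρ g) y = y) → y = 0
  dec : ∀ g ∈ Dec, ∀ y, W.InH Y 2 y → (∀ p ∈ π, W.ap (ρ p) y = y) → W.ap (ρ g) y - y ∈ low

attribute [instance] TatePlace.grp

/-- `X` has a fibration over a curve whose geometric generic fibre has a place of Tate type -/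
def TateType {W : Weil K} (𝓕 : Fibrations W) {n : ℕ} (X : W.Var n) : Prop :=
  ∃ (Y : W.Var (n + 1)) (f : 𝓕.Fib X Y), Nonempty (TatePlace W Y (𝓕.mon f))

/-- `T`, over `F m`, is a smooth complete intersection of ample divisors on the base change to `F m`
of `V`, a variety over `F n`, `n ≤ m` (the base change does not change the cohomology). `up` and
`down` are the restriction `H(V) → H(T)` and the Gysin map `H(T) → H(V)`. By the weak Lefschetz
theorem `up` is injective in the degrees at most `dim T` and `down` is injective in the degrees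
greater than `dim T`; the restrictions to `T × T` of the classes of cycles on `V × V` are classes of
cycles -/
structure Section (W : Weil K) {n m : ℕ} (V : W.Var n) (T : W.Var m) where
  r : ℕ
  up : W.Hom V T
  down : W.Hom T V
  dim_eq : W.dim T + r = W.dim V
  up_deg : W.HasDeg 0 up
  down_deg : W.HasDeg r down
  inj_up : ∀ i ≤ W.dim T, ∀ v, W.InH V i v → W.ap up v = 0 → v = 0
  inj_down : ∀ i, W.dim T < i → ∀ v, W.InH T i v → W.ap down v = 0 → v = 0
  restrict : ∀ (s : ℤ), ∀ c ∈ W.cyc V V s, W.comp (W.comp up c) down ∈ W.cyc T T (s + r)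

/-- the class `v` lies in the part of weight `r` of `Hⁱ(V)`, for a decomposition of `H(V)` with the
projectors `Q α`, of weight `w α` -/
def Part (W : Weil K) {n : ℕ} {V : W.Var n} {t : ℕ} (w : Fin t → ℕ) (Q : Fin t → W.Hom V V)
    (r i : ℤ) (v : W.H V) : Prop :=
  (∀ a, v a ≠ 0 → (W.deg V a : ℤ) = i) ∧ ∀ α, (w α : ℤ) ≠ r → W.ap (Q α) v = 0

/-- the part of degree `2` of `η` for this grading by the weights -/
def Lead (W : Weil K) {n : ℕ} {V : W.Var n} {t : ℕ} (w : Fin t → ℕ) (Q : Fin t → W.Hom V V)
    (η : W.Hom V V) : W.Hom V V :=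
  ∑ α, ∑ β, if w α + 2 = w β then W.comp (W.comp (Q β) η) (Q α) else 0

/-- `T` is bijective from the space of the `v` with `p v` to the space of the `u` with `p' u` -/
def Iso (W : Weil K) {n : ℕ} {V : W.Var n} (T : W.Hom V V) (p p' : W.H V → Prop) : Prop :=
  (∀ v, p v → W.ap T v = 0 → v = 0) ∧ ∀ u, p' u → ∃ v, p v ∧ W.ap T v = u

/-- There is a surjective morphism `f` from `V` to `X`, where `V` and `X` are of the same dimension
`d`. With the decomposition theorem of Beilinson, Bernstein, Deligne and Gabber:

* `N` is the degree of `f`, `b` and `a` are the inverse image `H(X) → H(V)` and the direct image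
  `H(V) → H(X)`; `M` is the product with the inverse image of an ample class on `X`, and `η` is the
  product with an ample class on `V`; `M + s η` is ample for all rational `s > 0` (the ample line
  bundles may have rational coefficients);
* the direct image `Rf_*` of the constant sheaf, shifted by `d`, is a direct sum of shifted simple
  perverse sheaves `K_α[d - w α]`, where `K_0` is the constant sheaf on `X`, shifted by `d`, with
  `w 0 = d`, and the other ones with `w α ≠ d` are supported on proper subsets of `X`. The map `Q α`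
  is the projector of `H(V)` onto the cohomology of this summand, so that `Q α` maps `Hⁱ(V)` onto
  `H^(i - w α)(X, K_α)`. It commutes with `M`, as `M` comes from `X`;
* `η_Q`, `η_0`: there are no morphisms from a perverse sheaf to a perverse sheaf with a negative
  shift, and no morphisms different from `0` between simple perverse sheaves with different supports;
* `rel` is the relative hard Lefschetz theorem, and `hl` is the hard Lefschetz theorem for the
  cohomology of the perverse sheaves `K_α`. -/
structure Dominates (W : Weil K) {n : ℕ} (V X : W.Var n) where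
  N : ℕ
  a : W.Hom V X
  b : W.Hom X V
  M : W.Hom V V
  η : W.Hom V V
  t : ℕ
  w : Fin (t + 1) → ℕ
  Q : Fin (t + 1) → W.Hom V V
  dim_eq : W.dim V = W.dim X
  N_pos : 0 < N
  a_mem : a ∈ W.cyc V X 0
  b_mem : b ∈ W.cyc X V 0
  ab : W.comp a b = W.rat N (W.id X)
  ample : ∀ s : ℚ, 0 < s → M + W.rat s η ∈ W.Lef V
  M_η : W.comp M η = W.comp η M
  Q_zero : W.rat N (Q 0) = W.comp b a
  Q_deg : ∀ α, W.HasDeg 0 (Q α)
  sum : ∑ α, Q α = W.id V
  orth : ∀ α β, α ≠ β → W.comp (Q α) (Q β) = 0
  M_Q : ∀ α, W.comp M (Q α) = W.comp (Q α) M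
  η_Q : ∀ α β, w α + 2 < w β → W.comp (W.comp (Q β) η) (Q α) = 0
  η_0 : ∀ α β, w α + 2 = w β → α = 0 ∨ β = 0 → W.comp (W.comp (Q β) η) (Q α) = 0
  rel : ∀ (j : ℕ) (i : ℤ), Iso W (W.pw (Lead W w Q η) j)
    (Part W w Q (W.dim V - j) i) (Part W w Q (W.dim V + j) (i + 2 * j))
  hl : ∀ (k : ℕ) (r : ℤ), Iso W (W.pw M k) (Part W w Q r (r - k)) (Part W w Q r (r + k))

/-- There is a surjective morphism from `X` to a variety `Z` of dimension at least `2` such that
`H²(X)` is generated by the classes of divisors and by the inverse image of `H²(Z)`; for example the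
fibres are rationally connected, or the morphism is birational. Here `β` is the inverse image and `π`
is the direct image, which is surjective -/
def Over (W : Weil K) {n : ℕ} (Z X : W.Var n) : Prop :=
  2 ≤ W.dim Z ∧ ∃ β ∈ W.cyc Z X 0, ∃ π ∈ W.cyc X Z ((W.dim Z : ℤ) - W.dim X),
    (∀ z, W.InH Z (2 * W.dim Z - 2) z →
      ∃ y, W.InH X (2 * W.dim X - 2) y ∧ W.ap π y = z) ∧
    ∀ u, W.InH X 2 u → ∃ z, W.InH Z 2 z ∧ u - W.ap β z ∈ NS W X

/-- there is a morphism as in `Over` from `X` to a surface, or to the product of two varieties of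
dimension at most `2` -/
def Split (W : Weil K) {n : ℕ} (X : W.Var n) : Prop :=
  ∃ A B : W.Var n, W.dim A ≤ 2 ∧ W.dim B ≤ 2 ∧ (Over W A X ∨ Over W (W.prod A B) X)

/-- Two Weil cohomologies `W` and `W'` of the same varieties, for example the `ℓ`-adic and the
crystalline cohomology.

* `var X` is the variety `X` as a variety of the theory `W'`;
* `cls X r f f'`: there is a cycle with rational coefficients on `X × X`, of codimension
  `dim X + r`, whose classes in the two theories are `f` and `f'`. The cycles can be added, multiplied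
  by rational numbers and composed; `lef`, `lef'`: ample line bundles;
* `katzMessing` is the theorem of Katz and Messing for the varieties over `F 0`, the algebraic
  closure of a finite field: the traces of the correspondence given by a cycle on the cohomology
  groups `Hⁱ(X)` of the two theories are equal and rational;
* `specialise`: a variety `X` over `F (n + 1)` is the geometric generic fibre of a smooth projective
  family over a curve over `F n`, and a cycle on `X × X` specialises to a cycle on `X₀ × X₀`, for a
  general fibre `X₀`; the specialisation `s : H(X) → H(X₀)` is an isomorphism in both theories, with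
  inverse `t`, and the classes of the cycle correspond to each other. -/
structure Comparison (W : Weil K) (W' : Weil K') where
  var : ∀ {n : ℕ}, W.Var n → W'.Var n
  cls : ∀ {n : ℕ} (X : W.Var n), ℤ → W.Hom X X → W'.Hom (var X) (var X) → Prop
  dim : ∀ {n : ℕ} (X : W.Var n), W'.dim (var X) = W.dim X
  left : ∀ {n : ℕ} (X : W.Var n) (r : ℤ), ∀ f ∈ W.cyc X X r, ∃ f', cls X r f f'
  right : ∀ {n : ℕ} (X : W.Var n) (r : ℤ), ∀ f' ∈ W'.cyc (var X) (var X) r, ∃ f, cls X r f f'
  mem : ∀ {n : ℕ} (X : W.Var n) (r : ℤ) (f : W.Hom X X) (f' : W'.Hom (var X) (var X)),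
    cls X r f f' → f ∈ W.cyc X X r ∧ f' ∈ W'.cyc (var X) (var X) r
  one : ∀ {n : ℕ} (X : W.Var n), cls X 0 (W.id X) (W'.id (var X))
  add : ∀ {n : ℕ} (X : W.Var n) (r : ℤ) (f g : W.Hom X X) (f' g' : W'.Hom (var X) (var X)),
    cls X r f f' → cls X r g g' → cls X r (f + g) (f' + g')
  rat : ∀ {n : ℕ} (X : W.Var n) (r : ℤ) (q : ℚ) (f : W.Hom X X) (f' : W'.Hom (var X) (var X)),
    cls X r f f' → cls X r (W.rat q f) (W'.rat q f')
  comp : ∀ {n : ℕ} (X : W.Var n) (r s : ℤ) (f g : W.Hom X X) (f' g' : W'.Hom (var X) (var X)),
    cls X r f f' → cls X s g g' → cls X (r + s) (W.comp g f) (W'.comp g' f')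
  lef : ∀ {n : ℕ} (X : W.Var n), ∀ L ∈ W.Lef X, ∃ L' ∈ W'.Lef (var X), cls X 1 L L'
  lef' : ∀ {n : ℕ} (X : W.Var n), ∀ L' ∈ W'.Lef (var X), ∃ L ∈ W.Lef X, cls X 1 L L'
  katzMessing : ∀ (X : W.Var 0) (f : W.Hom X X) (f' : W'.Hom (var X) (var X)), cls X 0 f f' →
    ∀ i : ℕ, ∃ q : ℚ, W.tr (W.comp f (W.pj X i)) = (q : K) ∧
      W'.tr (W'.comp f' (W'.pj (var X) i)) = (q : K')
  specialise : ∀ {n : ℕ} (X : W.Var (n + 1)) (f : W.Hom X X) (f' : W'.Hom (var X) (var X)),
    cls X 0 f f' → ∃ (X₀ : W.Var n) (s : W.Hom X X₀) (t : W.Hom X₀ X)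
      (s' : W'.Hom (var X) (var X₀)) (t' : W'.Hom (var X₀) (var X)),
      W.HasDeg 0 s ∧ W'.HasDeg 0 s' ∧
      W.comp t s = W.id X ∧ W.comp s t = W.id X₀ ∧
      W'.comp t' s' = W'.id (var X) ∧ W'.comp s' t' = W'.id (var X₀) ∧
      cls X₀ 0 (W.comp (W.comp s f) t) (W'.comp (W'.comp s' f') t')

end Pool.Agent.H64.LS
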