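import Pool.Agent.H64.LS.Class
import Pool.Agent.H64.FT.Class

/-!
# The Lefschetz standard conjecture for threefolds which are not of general type
-/

set_option autoImplicit false

open Matrix

namespace Pool.Agent.H64.LS

open Pool.Agent.H64.CC

variable {K K' : Type} [Field K] [CharZero K] [Field K'] [CharZero K'] {W : Weil K}
  {𝓕 : Fibrations W} {W' : Weil K'} {𝓕' : Fibrations W'} {Φ : Comparison W W'}

/-- the members of the class, in degree `2` -/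
theorem two_of_class (h : Cohomology W) (h' : Cohomology W')
    (hT : ∀ {n : ℕ} {X : W.Var n} {Y : W.Var (n + 1)} (f : 𝓕.Fib X Y), 𝓕.Theory f)
    (hT' : ∀ {n : ℕ} {X : W'.Var n} {Y : W'.Var (n + 1)} (f : 𝓕'.Fib X Y), 𝓕'.Theory f)
    {T : Geometry W 𝓕 W' 𝓕' Φ} {n : ℕ} {X : W.Var n} (hX : Class2 T X) (h2 : 2 ≤ W.dim X) :
    (W.BDeg X 2 ∧ W.pj X 2 ∈ W.cyc X X 0) ∧
      W'.BDeg (Φ.var X) 2 ∧ W'.pj (Φ.var X) 2 ∈ W'.cyc (Φ.var X) (Φ.var X) 0 := by
  have hd := Φ.dim X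
  have h1 := Class2.pure h h' hT hT' hX 2 le_rfl h2
  have h1' := (pure_transfer Φ h h' X h2).1 h1
  exact ⟨⟨bdeg_of_pure h.calculus h h2 h1, core_pj h.calculus h h2 h1⟩,
    bdeg_of_pure h'.calculus h' (by omega) h1', core_pj h'.calculus h' (by omega) h1'⟩

/-- the members of the class, in all degrees -/
theorem all_of_class (h : Cohomology W) (h' : Cohomology W')
    (hT : ∀ {n : ℕ} {X : W.Var n} {Y : W.Var (n + 1)} (f : 𝓕.Fib X Y), 𝓕.Theory f)
    (hT' : ∀ {n : ℕ} {X : W'.Var n} {Y : W'.Var (n + 1)} (f : 𝓕'.Fib X Y), 𝓕'.Theory f)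
    {T : Geometry W 𝓕 W' 𝓕' Φ} {n : ℕ} {X : W.Var n} (hX : ClassB T X) :
    (W.B X ∧ W.C X ∧ W.Cplus X) ∧
      W'.B (Φ.var X) ∧ W'.C (Φ.var X) ∧ W'.Cplus (Φ.var X) := by
  have hd := Φ.dim X
  obtain ⟨hC, hB, hp⟩ := ClassB.all h h' hT hT' hX
  have hC' : W'.C (Φ.var X) :=
    (Pool.Agent.H90.FT.transfer_C Φ.old h.calculus h'.calculus X).1 hC
  have hB' : W'.B (Φ.var X) := by
    intro i hi
    refine bdeg_of_pure h'.calculus h' hi ?_
    exact (pure_transfer Φ h h' X (by omega)).1 (hp i (by omega))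
  exact ⟨⟨hB, hC, Pool.Agent.H64.FT.cplus_of_C h.calculus hC⟩, hB', hC',
    Pool.Agent.H64.FT.cplus_of_C h'.calculus hC'⟩

end Pool.Agent.H64.LS
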