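import Pool.Agent.H64.LS.Defs

/-!
# The Lefschetz standard conjecture for threefolds: the classification
-/

set_option autoImplicit false

namespace Pool.Agent.H64.LS

open Pool.Agent.H64.CC Pool.Agent.H64.FT

variable {K K' : Type} [Field K] [CharZero K] [Field K'] [CharZero K']

/-- The classification of curves and surfaces, for the `ℓ`-adic cohomology `W` and the crystalline
cohomology `W'` with their fibrations over curves:

* `kod X`: the Kodaira dimension of `X`; `Abelian A`: `A` is an abelian variety; `kleiman`: the
  Lefschetz standard conjecture holds for abelian varieties;
* `LowGenus X`: `X` is covered by curves of geometric genus at most `1`; for example `X` is uniruled;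
* `curves`: a threefold `X` as in `LowGenus` is dominated by a smooth projective threefold `X'` with a
  morphism to a surface `Z` whose generic fibre is a smooth curve of genus at most `1` with a rational
  point (after a finite base change; resolution of singularities, Cossart and Piltant). If the genus
  is `0`, then `H²(X')` is generated by the inverse image of `H²(Z)` and by divisors. If the genus is
  `1` and the `j`-invariant is constant, then after a finite base change there is a birational
  morphism from `X'` to the product of an elliptic curve and of a surface. Otherwise let `Z → C` be
  the Stein factorisation of the `j`-invariant. After a finite base change the geometric generic fibre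
  of `X'` over `C` is smooth, and it is dominated by the product of an elliptic curve with
  non-constant `j`-invariant and of a curve, so that the poles of `j` are places of Tate type, and the
  Tate conjecture for divisors is known for it by the theorem of Zarhin and Mori;
* `surfaces`: let `f : X → C` be a fibration of a threefold over a curve with geometric generic fibre
  `Y` which is not of general type, and use the classification of Bombieri and Mumford. If `Y` is
  ruled or of Kodaira dimension `1`, then `X` is covered by curves of geometric genus at most `1`. If
  `Y` is an Enriques surface, a bielliptic or quasi-bielliptic surface, a supersingular `K3` surface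
  or a supersingular abelian surface, then `H²(Y)` is generated by the classes of divisors. Otherwise
  `Y` is birational to a `K3` surface of finite height or to an abelian surface which is not
  supersingular. If the monodromy group acts non-trivially on the transcendental part `T` of `H²(Y)`,
  then `Y` is as in `SlopeSurface`. If it acts trivially on `T`, then it acts on `H²(Y)` through a
  finite group, and `f` is isotrivial: by the theorem of Zarhin, for `K3` surfaces applied to the
  Kuga-Satake varieties with the étale period map of Madapusi Pera and of Kim and Madapusi Pera, and
  since outside the supersingular locus there are no families of such surfaces of constant isogeny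
  type (the central leaves are open in the Newton strata). So `X` is dominated by a variety `X'` with
  a birational morphism to the product of a surface and of a curve. -/
structure Geometry (W : Weil K) (𝓕 : Fibrations W) (W' : Weil K') (𝓕' : Fibrations W')
    (Φ : Comparison W W') where
  kod : ∀ {n : ℕ}, W.Var n → WithBot ℕ
  Abelian : ∀ {n : ℕ}, W.Var n → Prop
  LowGenus : ∀ {n : ℕ}, W.Var n → Prop
  kleiman : ∀ {n : ℕ} (A : W.Var n), Abelian A → W.B A
  curves : ∀ {n : ℕ} (X : W.Var n), W.dim X = 3 → LowGenus X →
    ∃ X' : W.Var n, Nonempty (Dominates W X' X) ∧ (Split W X' ∨ TateType 𝓕 X')
  surfaces : ∀ {n : ℕ} (X : W.Var n) (Y : W.Var (n + 1)) (_f : 𝓕.Fib X Y), W.dim Y = 2 →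
    kod Y < 2 → LowGenus X ∨ (∃ X' : W.Var n, Nonempty (Dominates W X' X) ∧ Split W X') ∨
      AllDivisors W Y ∨ Slope 𝓕' (Φ.var X)

variable {W : Weil K} {𝓕 : Fibrations W} {W' : Weil K'} {𝓕' : Fibrations W'}
  {Φ : Comparison W W'}

/-- The variety `X` has a dominant rational map to a curve whose fibres are surfaces which are not of
general type: after a purely inseparable base change a smooth projective model `X'` has a fibration
over a curve whose geometric generic fibre `Y` is a surface of Kodaira dimension less than `2` -/
def Geometry.Special (T : Geometry W 𝓕 W' 𝓕' Φ) {n : ℕ} (X : W.Var n) : Prop :=
  ∃ (X' : W.Var n) (Y : W.Var (n + 1)), Nonempty (Dominates W X' X) ∧ Nonempty (𝓕.Fib X' Y) ∧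
    T.kod Y < 2

/-- A consequence of the theory of the Iitaka fibration, in every characteristic. The generic fibre
`F` of the Iitaka fibration of a threefold `X` of Kodaira dimension `1` or `2` is a regular surface
or curve over the function field of the base, of Kodaira dimension `0`. If `F'` is the normalisation
of the reduced geometric generic fibre, then `K_F' + (p - 1) D` is the pull-back of `K_F`, for an
effective divisor `D` (Tate for curves, Tanaka, Patakfalvi and Waldron). So the smooth models of
`F'` are of Kodaira dimension at most `0`. So `X` is covered by curves of geometric genus at most
`1`, or it has a dominant rational map to a curve whose fibres are surfaces which are not of general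
type -/
def Geometry.Iitaka (T : Geometry W 𝓕 W' 𝓕' Φ) : Prop :=
  ∀ {n : ℕ} (X : W.Var n), W.dim X = 3 → T.kod X = 1 ∨ T.kod X = 2 → T.LowGenus X ∨ T.Special X

/-- Consequences of the minimal model program for threefolds, in characteristic `p > 5`. The
threefolds of Kodaira dimension `-∞` are uniruled (Hacon and Xu, Birkar, Xu and Zhang). The geometric
generic fibre of the Albanese map of a threefold of Kodaira dimension `0`, after Stein factorisation,
is of Kodaira dimension at most `0`, if `H¹(X) ≠ 0` (Zhang) and the Albanese map is not generically
finite; if it is generically finite then it is a birational morphism to an abelian variety (Hacon,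
Patakfalvi and Zhang) -/
def Geometry.MinimalModels (T : Geometry W 𝓕 W' 𝓕' Φ) : Prop :=
  ∀ {n : ℕ} (X : W.Var n), W.dim X = 3 →
    (T.kod X = ⊥ → T.LowGenus X) ∧ (T.kod X = 0 → ¬ Vanishes W X 1 →
      T.LowGenus X ∨ T.Special X ∨ ∃ A : W.Var n, T.Abelian A ∧ Over W A X)

/-- The smallest class of smooth projective varieties with the following properties; the Lefschetz
standard conjecture in degree `2` holds for its members:

* it contains the varieties of dimension at most `2`, the abelian varieties, and the varieties `X`
  such that `H²(X)` is generated by the classes of divisors;
* `fib`, `fib'`: it contains every variety `X`, of any dimension, with a fibration over a curve, with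
  geometric generic fibre `Y`, such that the classes in `H²(Y)` which are fixed by the monodromy
  group are combinations of classes of divisors, in one of the two cohomologies;
* `prod`: it is closed under products;
* `dom`: if it contains `V` and there is a surjective morphism from `V` to `X`, with
  `dim V = dim X`, then it contains `X`;
* `pull`: if it contains `Z` and there is a morphism from `X` to `Z` as in `Over`, then it contains
  `X`;
* `sect`: it contains the smooth complete intersections `S` of ample divisors, of dimension at least
  `3` and over any field `F m`, in its members. -/
inductive Class2 (T : Geometry W 𝓕 W' 𝓕' Φ) : ∀ {n : ℕ}, W.Var n → Prop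
  | small {n : ℕ} (X : W.Var n) : W.dim X ≤ 2 → Class2 T X
  | abelian {n : ℕ} (A : W.Var n) : T.Abelian A → Class2 T A
  | divisors {n : ℕ} (X : W.Var n) : AllDivisors W X → Class2 T X
  | fib {n : ℕ} (X : W.Var n) : Invariant 𝓕 X → Class2 T X
  | fib' {n : ℕ} (X : W.Var n) : Invariant 𝓕' (Φ.var X) → Class2 T X
  | prod {n : ℕ} (X Y : W.Var n) : Class2 T X → Class2 T Y → Class2 T (W.prod X Y)
  | dom {n : ℕ} (V X : W.Var n) : Dominates W V X → Class2 T V → Class2 T X
  | pull {n : ℕ} (Z X : W.Var n) : Over W Z X → Class2 T Z → Class2 T X
  | sect {n m : ℕ} (V : W.Var n) (S : W.Var m) : Section W V S → 3 ≤ W.dim S → Class2 T V →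
      Class2 T S

/-- The smallest class of smooth projective varieties with the following properties; the Lefschetz
standard conjecture holds for its members:

* it contains the varieties of dimension at most `2`, the abelian varieties, and the threefolds in
  `Class2`;
* it is closed under products;
* `dom`: if it contains `V` and there is a surjective morphism from `V` to `X`, with
  `dim V = dim X`, then it contains `X`;
* `sect`: it contains the smooth complete intersections of ample divisors, over any field `F m`, in
  its members. So it also contains `X` if there is a surjective morphism to `X` from a member of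
  larger dimension. -/
inductive ClassB (T : Geometry W 𝓕 W' 𝓕' Φ) : ∀ {n : ℕ}, W.Var n → Prop
  | small {n : ℕ} (X : W.Var n) : W.dim X ≤ 2 → ClassB T X
  | abelian {n : ℕ} (A : W.Var n) : T.Abelian A → ClassB T A
  | three {n : ℕ} (X : W.Var n) : W.dim X = 3 → Class2 T X → ClassB T X
  | prod {n : ℕ} (X Y : W.Var n) : ClassB T X → ClassB T Y → ClassB T (W.prod X Y)
  | dom {n : ℕ} (V X : W.Var n) : Dominates W V X → ClassB T V → ClassB T X
  | sect {n m : ℕ} (V : W.Var n) (S : W.Var m) : Section W V S → ClassB T V → ClassB T S

end Pool.Agent.H64.LS
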