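import Pool.Agent.H64.LS.Cri
import Pool.Agent.H64.LS.Dbl

/-!
# The decomposition theorem: the hard Lefschetz theorem for the leading part
-/

set_option autoImplicit false

open Matrix

namespace Pool.Agent.H64.LS

open Pool.Agent.H64.CC
open Pool.Agent.H64.FT (pj_apply pj_mul_apply mul_pj_apply pj_comm pj_zero_of pj_mul_pj pj_comm0
  mul_pj_eq_zero apply_of_mul_pj pj_mulVec inH_mulVec sum_pj pj_eq_zero ext_pj NS Fixed Stable
  SlopeSurface)

variable {K : Type} [Field K] [CharZero K] {W : Weil K}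

theorem hasDeg_mul {n : ℕ} {V : W.Var n} {f g : W.Hom V V} {r s : ℤ} (hf : W.HasDeg r f)
    (hg : W.HasDeg s g) : W.HasDeg (r + s) (f * g : W.Hom V V) := by
  intro b a h
  rw [Matrix.mul_apply] at h
  obtain ⟨c, _, hc⟩ := Finset.exists_ne_zero_of_sum_ne_zero h
  have h1 := hf b c (left_ne_zero_of_mul hc)
  have h2 := hg c a (right_ne_zero_of_mul hc)
  omega

theorem hasDeg_sum {n : ℕ} {V : W.Var n} {ι : Type} (s : Finset ι) {f : ι → W.Hom V V} {r : ℤ}
    (hf : ∀ i ∈ s, W.HasDeg r (f i)) : W.HasDeg r (∑ i ∈ s, f i) := by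
  intro b a h
  rw [Matrix.sum_apply] at h
  obtain ⟨c, hc, hc2⟩ := Finset.exists_ne_zero_of_sum_ne_zero h
  exact hf c hc b a hc2

/-- the submodule of vectors of one degree, with integral degrees -/
def HZ (W : Weil K) {n : ℕ} (X : W.Var n) (i : ℤ) : Submodule K (W.H X) where
  carrier := {v | ∀ a, v a ≠ 0 → (W.deg X a : ℤ) = i}
  zero_mem' := fun _ ha => absurd rfl ha
  add_mem' := by
    intro x y hx hy a ha
    by_cases h1 : x a = 0
    · refine hy a fun h2 => ha ?_
      rw [Pi.add_apply, h1, h2, add_zero]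
    · exact hx a h1
  smul_mem' := by
    intro q x hx a ha
    refine hx a fun h2 => ha ?_
    rw [Pi.smul_apply, h2, smul_zero]

theorem hz_mulVec {n : ℕ} {X : W.Var n} {f : W.Hom X X} {r : ℤ} (hf : W.HasDeg r f) {i j : ℤ}
    (h : j = i + 2 * r) {v : W.H X} (hv : v ∈ HZ W X i) : f *ᵥ v ∈ HZ W X j := by
  intro b hb
  change (∑ a, f b a * v a) ≠ 0 at hb
  obtain ⟨a, _, ha⟩ := Finset.exists_ne_zero_of_sum_ne_zero hb
  have h1 := hf b a (left_ne_zero_of_mul ha)
  have h2 : (W.deg X a : ℤ) = i := hv a (right_ne_zero_of_mul ha)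
  omega

/-- the parts -/
def EE (W : Weil K) {n : ℕ} {V : W.Var n} {t : ℕ} (w : Fin t → ℕ) (Q : Fin t → W.Hom V V)
    (j k : ℤ) : Submodule K (W.H V) where
  carrier := {v | Part W w Q (W.dim V + j) (W.dim V + j + k) v}
  zero_mem' := ⟨(HZ W V _).zero_mem, fun α _ => Matrix.mulVec_zero _⟩
  add_mem' := by
    intro x y hx hy
    refine ⟨(HZ W V _).add_mem hx.1 hy.1, fun α hα => ?_⟩
    have h1 : Q α *ᵥ x = 0 := hx.2 α hα
    have h2 : Q α *ᵥ y = 0 := hy.2 α hα
    show Q α *ᵥ (x + y) = 0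
    rw [Matrix.mulVec_add, h1, h2, add_zero]
  smul_mem' := by
    intro c x hx
    refine ⟨(HZ W V _).smul_mem c hx.1, fun α hα => ?_⟩
    have h1 : Q α *ᵥ x = 0 := hx.2 α hα
    show Q α *ᵥ (c • x) = 0
    rw [Matrix.mulVec_smul, h1, smul_zero]

theorem mem_EE {n : ℕ} {V : W.Var n} {t : ℕ} {w : Fin t → ℕ} {Q : Fin t → W.Hom V V}
    {j k r i : ℤ} (hr : r = W.dim V + j) (hi : i = W.dim V + j + k) {v : W.H V} :
    v ∈ EE W w Q j k ↔ Part W w Q r i v := by
  rw [hr, hi]
  exact Iff.rfl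

/-- the hard Lefschetz theorem for `M + η'` -/
theorem Dominates.hard (h : Cohomology W) {n : ℕ} {V X : W.Var n} (q : Dominates W V X) {i : ℕ}
    (hi : i ≤ W.dim V) {v : W.H V} (hv : W.InH V i v)
    (h0 : (q.M + Lead W q.w q.Q q.η) ^ (W.dim V - i) *ᵥ v = 0) : v = 0 := by
  have hW := h.calculus
  obtain ⟨N, hN⟩ : ∃ N, N = Lead W q.w q.Q q.η := ⟨_, rfl⟩
  have hL1 := h.mem V _ (q.ample 1 one_pos)
  have hL2 := h.mem V _ (q.ample 2 two_pos)
  have e1 : W.rat 1 q.η = q.η := by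
    show ((1 : ℚ) : K) • q.η = q.η
    rw [Rat.cast_one, one_smul]
  have e2 : W.rat 2 q.η = q.η + q.η := by
    show ((2 : ℚ) : K) • q.η = q.η + q.η
    rw [show (2 : ℚ) = 1 + 1 by norm_num, Rat.cast_add, Rat.cast_one, add_smul, one_smul]
  rw [e1] at hL1
  rw [e2] at hL2
  have hηm : q.η ∈ W.cyc V V 1 := by
    have h1 := Submodule.sub_mem _ hL2 hL1
    have e : q.M + (q.η + q.η) - (q.M + q.η) = q.η := by abel
    rwa [e] at h1
  have hMm : q.M ∈ W.cyc V V 1 := by
    have h1 := Submodule.sub_mem _ hL1 hηm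
    have e : q.M + q.η - q.η = q.M := by abel
    rwa [e] at h1
  have hηd := hW.cyc_deg V V 1 _ hηm
  have hMd := hW.cyc_deg V V 1 _ hMm
  have hMQ : ∀ α, q.M * q.Q α = q.Q α * q.M := q.M_Q
  have hsum : ∑ α, q.Q α = 1 := q.sum
  have horth : ∀ α β, α ≠ β → q.Q α * q.Q β = 0 := q.orth
  have hid : ∀ α, q.Q α * q.Q α = q.Q α := by
    intro α
    have h1 : q.Q α * ∑ β, q.Q β = q.Q α := by rw [hsum, mul_one]
    rw [Finset.mul_sum, Finset.sum_eq_single α] at h1
    · exact h1
    · intro β _ hβ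
      exact horth α β (Ne.symm hβ)
    · intro h
      exact absurd (Finset.mem_univ α) h
  have hMη : q.M * q.η = q.η * q.M := q.M_η
  have hNdef : N = ∑ α, ∑ β, if q.w α + 2 = q.w β then q.Q β * q.η * q.Q α else 0 := hN
  have hNd : W.HasDeg 1 N := by
    rw [hNdef]
    refine hasDeg_sum _ fun α _ => hasDeg_sum _ fun β _ => ?_
    split_ifs with hw
    · have h1 := hasDeg_mul (hasDeg_mul (q.Q_deg β) hηd) (q.Q_deg α)
      rwa [show (0 : ℤ) + 1 + 0 = 1 by norm_num] at h1
    · exact fun b a hba => absurd rfl hba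
  have hMN : q.M * N = N * q.M := by
    rw [hNdef, Finset.mul_sum, Finset.sum_mul]
    refine Finset.sum_congr rfl fun α _ => ?_
    rw [Finset.mul_sum, Finset.sum_mul]
    refine Finset.sum_congr rfl fun β _ => ?_
    split_ifs with hw
    · rw [← mul_assoc, ← mul_assoc, hMQ, mul_assoc (q.Q β), hMη, mul_assoc (q.Q β) (q.η * q.M),
        mul_assoc q.η, hMQ, ← mul_assoc, ← mul_assoc]
    · rw [mul_zero, zero_mul]
  have hQN : ∀ (j : ℤ) (x : W.H V), (∀ α, (q.w α : ℤ) ≠ j → q.Q α *ᵥ x = 0) →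
      ∀ γ, (q.w γ : ℤ) ≠ j + 2 → q.Q γ *ᵥ (N *ᵥ x) = 0 := by
    intro j x hx γ hγ
    rw [Matrix.mulVec_mulVec, hNdef, Finset.mul_sum, Matrix.sum_mulVec]
    refine Finset.sum_eq_zero fun α _ => ?_
    rw [Finset.mul_sum, Matrix.sum_mulVec]
    refine Finset.sum_eq_zero fun β _ => ?_
    split_ifs with hw
    · by_cases hβ : γ = β
      · subst hβ
        have h1 : q.Q α *ᵥ x = 0 := hx α (by omega)
        rw [← mul_assoc, ← Matrix.mulVec_mulVec, h1, Matrix.mulVec_zero]
      · rw [← mul_assoc, ← mul_assoc, horth γ β hβ, zero_mul, zero_mul, Matrix.zero_mulVec]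
    · rw [mul_zero, Matrix.zero_mulVec]
  -- the endomorphisms
  let τ := Matrix.toLinAlgEquiv' (R := K) (n := Fin (W.rk V))
  have hτ : ∀ (A : W.Hom V V) (x : W.H V), τ A x = A *ᵥ x := fun A x =>
    Matrix.toLinAlgEquiv'_apply A x
  have hτp : ∀ (A : W.Hom V V) (k : ℕ) (x : W.H V), (τ A ^ k) x = A ^ k *ᵥ x := by
    intro A k x
    rw [← map_pow, hτ]
  have hcomm : Commute (τ q.M) (τ N) := by
    show τ q.M * τ N = τ N * τ q.M
    rw [← map_mul, ← map_mul, hMN]
  obtain ⟨B, hB⟩ : ∃ B : ℕ, B = W.dim V + ∑ α, q.w α := ⟨_, rfl⟩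
  have hwB : ∀ α, q.w α ≤ B := by
    intro α
    rw [hB]
    exact (Finset.single_le_sum (f := q.w) (fun _ _ => Nat.zero_le _) (Finset.mem_univ α)).trans
      (Nat.le_add_left _ _)
  have hv0 : ∀ x : W.H V, (∀ α, q.Q α *ᵥ x = 0) → x = 0 := by
    intro x hx
    have h1 : (∑ α, q.Q α) *ᵥ x = 0 := by
      rw [Matrix.sum_mulVec]
      exact Finset.sum_eq_zero fun α _ => hx α
    rwa [hsum, Matrix.one_mulVec] at h1
  have hdouble := double (M := τ q.M) (N := τ N) hcomm (E := EE W q.w q.Q)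
    (fun j k x hx => ⟨by
        rw [hτ]
        exact hz_mulVec hNd (by ring) hx.1, fun γ hγ => by
        rw [hτ]
        exact hQN (W.dim V + j) x hx.2 γ (by
          intro h1
          apply hγ
          rw [h1]
          ring)⟩)
    (fun j k x hx => ⟨by
        rw [hτ]
        exact hz_mulVec hMd (by ring) hx.1, fun γ hγ => by
        have h1 : q.Q γ *ᵥ x = 0 := hx.2 γ hγ
        rw [hτ]
        show q.Q γ *ᵥ (q.M *ᵥ x) = 0
        rw [Matrix.mulVec_mulVec, ← hMQ, ← Matrix.mulVec_mulVec, h1, Matrix.mulVec_zero]⟩)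
    (fun m k y hy => by
      obtain ⟨x, hx, hxy⟩ := (q.rel m (W.dim V - m + k)).2 y
        ((mem_EE (by ring) (by ring)).1 hy)
      refine ⟨x, (mem_EE (by ring) (by ring)).2 hx, ?_⟩
      rw [hτp, hN]
      exact hxy)
    (fun j m y hy => by
      obtain ⟨x, hx, hxy⟩ := (q.hl m (W.dim V + j)).2 y
        ((mem_EE (by ring) (by ring)).1 hy)
      refine ⟨x, (mem_EE (by ring) (by ring)).2 hx, ?_⟩
      rw [hτp]
      exact hxy)
    (fun j m x hx hx0 => by
      refine (q.hl m (W.dim V + j)).1 x ((mem_EE (by ring) (by ring)).1 hx) ?_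
      rw [hτp] at hx0
      exact hx0) B
    (fun j k hj => by
      rw [Submodule.eq_bot_iff]
      intro x hx
      refine hv0 x fun α => hx.2 α ?_
      have := hwB α
      omega)
    (fun j k hk => by
      rw [Submodule.eq_bot_iff]
      intro x hx
      by_contra hx0
      obtain ⟨a, ha⟩ : ∃ a, x a ≠ 0 := by
        by_contra h1
        push Not at h1
        exact hx0 (funext h1)
      have h2 : (W.deg V a : ℤ) = W.dim V + j + k := hx.1 a ha
      apply hx0
      refine hv0 x fun α => hx.2 α ?_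
      have := hwB α
      omega)
    (H := fun m => HZ W V (W.dim V + m)) (fun j k x hx => by
      have h1 := hx.1
      rw [add_assoc] at h1
      exact h1)
  -- surjectivity
  obtain ⟨m, hm⟩ : ∃ m, m = W.dim V - i := ⟨_, rfl⟩
  rw [← hm, ← hN] at h0
  have hsurj : ∀ y ∈ HZ W V (W.dim V + m), ∃ x ∈ HZ W V (W.dim V - m),
      (q.M + N) ^ m *ᵥ x = y := by
    intro y hy
    have h1 : ∀ α, ∃ x ∈ HZ W V (W.dim V + -(m : ℤ)), ((τ q.M + τ N) ^ m) x = q.Q α *ᵥ y := by
      intro α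
      refine hdouble m (j := q.w α - W.dim V) (k := m - (q.w α - W.dim V)) (by ring) ?_
      rw [mem_EE (r := q.w α) (i := W.dim V + m) (by ring) (by ring)]
      refine ⟨hz_mulVec (q.Q_deg α) (by ring) hy, fun β hβ => ?_⟩
      show q.Q β *ᵥ (q.Q α *ᵥ y) = 0
      have h2 : β ≠ α := by
        rintro rfl
        exact hβ rfl
      rw [Matrix.mulVec_mulVec, horth β α h2, Matrix.zero_mulVec]
    choose x hx hxy using h1
    refine ⟨∑ α, x α, ?_, ?_⟩
    · rw [sub_eq_add_neg]
      exact Submodule.sum_mem _ fun α _ => hx α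
    · rw [Matrix.mulVec_sum]
      have h2 : ∀ α, (q.M + N) ^ m *ᵥ x α = q.Q α *ᵥ y := by
        intro α
        rw [← hxy α, ← map_add, hτp]
      rw [Finset.sum_congr rfl fun α _ => h2 α, ← Matrix.sum_mulVec, hsum, Matrix.one_mulVec]
  -- the dimensions
  obtain ⟨L, hL⟩ := h.nonempty V
  have hLm := hW.cyc_deg V V _ _ (pow_mem hW (h.mem V L hL) m)
  have hTd : W.HasDeg m ((q.M + N) ^ m : W.Hom V V) := by
    have h1 : W.HasDeg 1 (q.M + N) := by
      intro b a hba
      by_cases h2 : q.M b a = 0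
      · refine hNd b a fun h3 => hba ?_
        rw [Matrix.add_apply, h2, h3, add_zero]
      · exact hMd b a h2
    clear hLm hm h0 hsurj
    induction m with
    | zero =>
      intro b a hba
      rw [pow_zero] at hba
      by_cases h2 : b = a
      · subst h2
        simp
      · exact absurd (Matrix.one_apply_ne h2) hba
    | succ m ih =>
      rw [pow_succ]
      have h2 := hasDeg_mul ih h1
      push_cast
      exact h2
  let f : HZ W V (W.dim V - m) →ₗ[K] HZ W V (W.dim V + m) :=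
    { toFun := fun x => ⟨(q.M + N) ^ m *ᵥ x.1, hz_mulVec hTd (by ring) x.2⟩
      map_add' := fun x y => by
        apply Subtype.ext
        change (q.M + N) ^ m *ᵥ (x.1 + y.1) = (q.M + N) ^ m *ᵥ x.1 + (q.M + N) ^ m *ᵥ y.1
        rw [Matrix.mulVec_add]
      map_smul' := fun c x => by
        apply Subtype.ext
        change (q.M + N) ^ m *ᵥ (c • x.1) = c • ((q.M + N) ^ m *ᵥ x.1)
        rw [Matrix.mulVec_smul] }
  let g : HZ W V (W.dim V - m) →ₗ[K] HZ W V (W.dim V + m) :=
    { toFun := fun x => ⟨L ^ m *ᵥ x.1, hz_mulVec hLm (by ring) x.2⟩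
      map_add' := fun x y => by
        apply Subtype.ext
        change L ^ m *ᵥ (x.1 + y.1) = L ^ m *ᵥ x.1 + L ^ m *ᵥ y.1
        rw [Matrix.mulVec_add]
      map_smul' := fun c x => by
        apply Subtype.ext
        change L ^ m *ᵥ (c • x.1) = c • (L ^ m *ᵥ x.1)
        rw [Matrix.mulVec_smul] }
  have hconv : ∀ (x : W.H V), x ∈ HZ W V (W.dim V - m) ↔ W.InH V i x := by
    intro x
    constructor
    · intro hx a ha
      have : (W.deg V a : ℤ) = W.dim V - m := hx a ha
      omega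
    · intro hx a ha
      have := hx a ha
      omega
  have hconv' : ∀ (x : W.H V), x ∈ HZ W V (W.dim V + m) ↔ W.InH V (2 * W.dim V - i) x := by
    intro x
    constructor
    · intro hx a ha
      have : (W.deg V a : ℤ) = W.dim V + m := hx a ha
      omega
    · intro hx a ha
      have := hx a ha
      omega
  have hginj : Function.Injective g := by
    rw [injective_iff_map_eq_zero]
    rintro ⟨x, hx⟩ hx0
    apply Subtype.ext
    refine h.inj V L hL i hi x ((hconv x).1 hx) ?_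
    have h1 := congrArg Subtype.val hx0
    rw [← hm]
    exact h1
  have hgsurj : Function.Surjective g := by
    rintro ⟨y, hy⟩
    obtain ⟨x, hx, hxy⟩ := h.surj V L hL i hi y ((hconv' y).1 hy)
    refine ⟨⟨x, (hconv x).2 hx⟩, Subtype.ext ?_⟩
    rw [← hm] at hxy
    exact hxy
  have hfsurj : Function.Surjective f := by
    rintro ⟨y, hy⟩
    obtain ⟨x, hx, hxy⟩ := hsurj y hy
    exact ⟨⟨x, hx⟩, Subtype.ext hxy⟩
  have hfr : Module.finrank K (HZ W V (W.dim V - m)) = Module.finrank K (HZ W V (W.dim V + m)) :=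
    (LinearEquiv.ofBijective g ⟨hginj, hgsurj⟩).finrank_eq
  have hfinj := (LinearMap.injective_iff_surjective_of_finrank_eq_finrank hfr).2 hfsurj
  have h5 : f ⟨v, (hconv v).2 hv⟩ = f 0 := by
    apply Subtype.ext
    rw [map_zero]
    exact h0
  exact congrArg Subtype.val (hfinj h5)

end Pool.Agent.H64.LS
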