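import Pool.Agent.H64.LS.Core

/-!
# The inverse of the Lefschetz map on the classes of divisors
-/

set_option autoImplicit false

open Matrix

namespace Pool.Agent.H64.LS

open Pool.Agent.H64.CC
open Pool.Agent.H64.FT (pj_apply pj_mul_apply mul_pj_apply pj_comm pj_zero_of pj_mul_pj pj_comm0
  mul_pj_eq_zero apply_of_mul_pj pj_mulVec inH_mulVec sum_pj pj_eq_zero ext_pj NS Fixed Stable
  SlopeSurface)

variable {K : Type} [Field K] [CharZero K] {W : Weil K}

theorem isDivisor_zero {n : ℕ} (X : W.Var n) : IsDivisor W X 0 := by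
  intro v _
  have : Matrix.vecMulVec v (0 : W.H X) = 0 := by
    ext b a
    simp [Matrix.vecMulVec_apply]
  rw [this]
  exact Submodule.zero_mem _

theorem IsDivisor.add {n : ℕ} {X : W.Var n} {φ ψ : W.H X}
    (h1 : IsDivisor W X φ) (h2 : IsDivisor W X ψ) : IsDivisor W X (φ + ψ) := by
  intro v hv
  have : Matrix.vecMulVec v (φ + ψ) = Matrix.vecMulVec v φ + Matrix.vecMulVec v ψ := by
    ext b a
    simp [Matrix.vecMulVec_apply, mul_add]
  rw [this]
  exact Submodule.add_mem _ (h1 v hv) (h2 v hv)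

theorem IsDivisor.smul {n : ℕ} {X : W.Var n} {φ : W.H X}
    (h1 : IsDivisor W X φ) (c : ℚ) : IsDivisor W X (c • φ) := by
  intro v hv
  have : Matrix.vecMulVec v (c • φ) = c • Matrix.vecMulVec v φ := by
    ext b a
    simp [Matrix.vecMulVec_apply]
  rw [this]
  exact Submodule.smul_mem _ c (h1 v hv)

/-- the intersection numbers are rational -/
theorem IsDivisor.rat (hW : W.Calculus) {n : ℕ} {X : W.Var n} {φ : W.H X}
    (h1 : IsDivisor W X φ) {A : W.Hom X X} (hA : A ∈ W.cyc X X ((W.dim X : ℤ) - 2)) {v : W.H X}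
    (hv : v ∈ W.alg X 1) : ∃ q : ℚ, φ ⬝ᵥ (A *ᵥ v) = (q : K) := by
  have hx : Matrix.vecMulVec v φ * A ∈ W.cyc X X 0 := comp_cyc hW hA (h1 v hv) (by ring)
  have hp : W.pj X 2 * (Matrix.vecMulVec v φ * A) = Matrix.vecMulVec v φ * A := by
    rw [← Matrix.mul_assoc]
    congr 1
    ext b a
    rw [pj_mul_apply]
    split_ifs with h
    · rfl
    · rw [Matrix.vecMulVec_apply]
      by_contra h2
      have h3 : v b ≠ 0 := fun h4 => h2 (by rw [h4, zero_mul])
      have h5 := hW.alg_deg X 1 v hv b h3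
      omega
  obtain ⟨q, hq⟩ := rat_trace hW 2 hx (by rw [← pj_comm0 (hW.cyc_deg X X 0 _ hx), hp])
  refine ⟨q, ?_⟩
  rw [← hq, Matrix.trace]
  have h2 : ∀ b, Matrix.diag (Matrix.vecMulVec v φ * A) b = v b * (φ ᵥ* A) b := by
    intro b
    rw [Matrix.diag_apply, Matrix.mul_apply, Matrix.vecMul, dotProduct, Finset.mul_sum]
    refine Finset.sum_congr rfl fun c _ => ?_
    rw [Matrix.vecMulVec_apply]
    ring
  rw [Finset.sum_congr rfl fun b _ => h2 b, Matrix.dotProduct_mulVec, dotProduct]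
  exact Finset.sum_congr rfl fun b _ => mul_comm _ _

/-- MU -/
theorem exists_mu (hW : W.Calculus) {n : ℕ} (X : W.Var n) {L : W.Hom X X}
    (hL : L ^ (W.dim X - 2) ∈ W.cyc X X ((W.dim X : ℤ) - 2))
    (hdiv : ∀ v ∈ W.alg X 1, v ≠ 0 →
      ∃ φ, IsDivisor W X φ ∧ φ ⬝ᵥ W.ap (W.pw L (W.dim X - 2)) v ≠ 0) :
    ∃ μ ∈ W.cyc X X ((2 : ℤ) - W.dim X),
      (∀ v ∈ NS W X, μ *ᵥ (L ^ (W.dim X - 2) *ᵥ v) = v) ∧ (∀ y, μ *ᵥ y ∈ NS W X) := by
  obtain ⟨A, hA⟩ : ∃ A : W.Hom X X, A = L ^ (W.dim X - 2) := ⟨_, rfl⟩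
  have hap : ∀ v : W.H X, W.ap (W.pw L (W.dim X - 2)) v = A *ᵥ v := fun v => by rw [hA]; rfl
  rw [← hA] at hL ⊢
  obtain ⟨m, v, hv, hspan, hli⟩ : ∃ (m : ℕ) (v : Fin m → W.H X), (∀ i, v i ∈ W.alg X 1) ∧
      Submodule.span K (Set.range v) = Submodule.span K (W.alg X 1 : Set (W.H X)) ∧
      LinearIndependent K v :=
    ⟨_, Submodule.exists_fun_fin_finrank_span_eq K (W.alg X 1 : Set (W.H X))⟩
  let Img : Submodule ℚ (Fin m → ℚ) :=
    { carrier := {q | ∃ φ, IsDivisor W X φ ∧ ∀ j, φ ⬝ᵥ (A *ᵥ v j) = (q j : K)}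
      zero_mem' := ⟨0, isDivisor_zero X, fun j => by simp⟩
      add_mem' := by
        rintro a b ⟨φ, h1, h2⟩ ⟨ψ, h3, h4⟩
        exact ⟨φ + ψ, h1.add h3, fun j => by
          rw [add_dotProduct, h2, h4, Pi.add_apply]; push_cast; rfl⟩
      smul_mem' := by
        rintro c a ⟨φ, h1, h2⟩
        exact ⟨c • φ, h1.smul c, fun j => by
          rw [smul_dotProduct, h2, Pi.smul_apply, Rat.smul_def, smul_eq_mul]; push_cast; rfl⟩ }
  have htop : Img = ⊤ := by
    by_contra hne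
    obtain ⟨f, hf0, hf⟩ := Submodule.exists_le_ker_of_lt_top Img (lt_top_iff_ne_top.2 hne)
    obtain ⟨w, hw⟩ : ∃ w : W.H X, w = ∑ j, (f (Pi.single j 1)) • v j := ⟨_, rfl⟩
    have hwalg : w ∈ W.alg X 1 := by
      rw [hw]
      exact Submodule.sum_mem _ fun j _ => Submodule.smul_mem _ _ (hv j)
    have hfq : ∀ q : Fin m → ℚ, f q = ∑ j, q j * f (Pi.single j 1) := by
      intro q
      conv_lhs => rw [← Finset.univ_sum_single q]
      rw [map_sum]
      refine Finset.sum_congr rfl fun j _ => ?_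
      have : (Pi.single j (q j) : Fin m → ℚ) = q j • Pi.single j 1 := by
        ext k
        simp [Pi.single_apply]
      rw [this, map_smul, smul_eq_mul]
    have hw0 : w = 0 := by
      by_contra hne2
      obtain ⟨φ, hφ, hφw⟩ := hdiv w hwalg hne2
      rw [hap] at hφw
      apply hφw
      choose q hq using fun j => hφ.rat hW hL (hv j)
      have h1 : f q = 0 := hf (show q ∈ Img from ⟨φ, hφ, hq⟩)
      rw [hfq] at h1
      rw [hw, Matrix.mulVec_sum, dotProduct_sum]
      have h2 : ∀ j, φ ⬝ᵥ (A *ᵥ (f (Pi.single j 1) • v j)) =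
          ((q j * f (Pi.single j 1) : ℚ) : K) := by
        intro j
        rw [Matrix.mulVec_smul, dotProduct_smul, hq, Rat.smul_def]
        push_cast
        ring
      rw [Finset.sum_congr rfl fun j _ => h2 j, ← Rat.cast_sum, h1, Rat.cast_zero]
    apply hf0
    have h3 : ∑ j, ((f (Pi.single j 1) : ℚ) : K) • v j = 0 := by
      rw [← hw0, hw]
      exact Finset.sum_congr rfl fun j _ => by
        ext a
        simp [Rat.smul_def]
    have h4 := Fintype.linearIndependent_iff.1 hli _ h3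
    apply LinearMap.ext
    intro q
    rw [hfq, LinearMap.zero_apply]
    exact Finset.sum_eq_zero fun j _ => by
      rw [Rat.cast_eq_zero.1 (h4 j), mul_zero]
  have hex : ∀ i : Fin m, ∃ φ, IsDivisor W X φ ∧
      ∀ j, φ ⬝ᵥ (A *ᵥ v j) = ((Pi.single i 1 : Fin m → ℚ) j : K) := by
    intro i
    have : (Pi.single i 1 : Fin m → ℚ) ∈ Img := by rw [htop]; trivial
    exact this
  choose φ hφ hφv using hex
  have hmem : ∑ i, Matrix.vecMulVec (v i) (φ i) ∈ W.cyc X X ((2 : ℤ) - W.dim X) :=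
    Submodule.sum_mem _ fun i _ => hφ i (v i) (hv i)
  have hval : ∀ y, (∑ i, Matrix.vecMulVec (v i) (φ i)) *ᵥ y = ∑ i, (φ i ⬝ᵥ y) • v i := by
    intro y
    rw [Matrix.sum_mulVec]
    refine Finset.sum_congr rfl fun i _ => ?_
    rw [Matrix.vecMulVec_mulVec]
    ext a
    simp [mul_comm]
  refine ⟨_, hmem, ?_, ?_⟩
  · intro x hx
    unfold NS at hx
    rw [← hspan] at hx
    induction hx using Submodule.span_induction with
    | mem x hx =>
      obtain ⟨j, rfl⟩ := hx
      rw [hval, Finset.sum_eq_single j]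
      · rw [hφv]
        simp
      · intro i _ hij
        rw [hφv, Pi.single_eq_of_ne (Ne.symm hij)]
        simp
      · intro h
        exact absurd (Finset.mem_univ j) h
    | zero => rw [Matrix.mulVec_zero, Matrix.mulVec_zero]
    | add x y _ _ h1 h2 => rw [Matrix.mulVec_add, Matrix.mulVec_add, h1, h2]
    | smul c x _ h1 => rw [Matrix.mulVec_smul, Matrix.mulVec_smul, h1]
  · intro y
    rw [hval]
    exact Submodule.sum_mem _ fun i _ =>
      Submodule.smul_mem _ _ (Submodule.subset_span (hv i))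

end Pool.Agent.H64.LS
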