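import Mathlib

/-!
# The hard Lefschetz theorem for a product of two strings
-/

set_option autoImplicit false

open Polynomial

namespace Pool.Agent.H64.LS

variable {K : Type} [Field K] [CharZero K]

/-- the scalar lemma -/
theorem scal {q b i : ℕ} (hm : 2 * i ≤ q + b) {F : K[X]}
    (hF : ∀ a, F.coeff a ≠ 0 → a ≤ q ∧ a ≤ i ∧ i ≤ a + b)
    (hc : ∀ c ≤ q, q ≤ c + i → ((1 + X) ^ (q + b - 2 * i) * F).coeff c = 0) : F = 0 := by
  obtain ⟨m, hmdef⟩ : ∃ m, m = q + b - 2 * i := ⟨_, rfl⟩
  rw [← hmdef] at hc
  have hmon : (1 + X : K[X]).Monic := by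
    rw [add_comm]
    exact Polynomial.monic_X_add_C 1
  have hdeg1 : ((1 + X : K[X]) ^ m).natDegree = m := by
    rw [hmon.natDegree_pow, add_comm]
    have : (X + 1 : K[X]).natDegree = 1 := Polynomial.natDegree_X_add_C 1
    rw [this, mul_one]
  have hco : IsCoprime (X : K[X]) (1 + X) := ⟨-1, 1, by ring⟩
  by_contra hne
  have hdF : F.natDegree ≤ q ∧ F.natDegree ≤ i ∧ i ≤ F.natDegree + b :=
    hF _ (by
      rw [Polynomial.coeff_natDegree]
      exact Polynomial.leadingCoeff_ne_zero.2 hne)
  obtain ⟨P, hP⟩ : ∃ P, P = (1 + X : K[X]) ^ m * F := ⟨_, rfl⟩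
  rw [← hP] at hc
  have hP0 : P ≠ 0 := by
    rw [hP]
    exact mul_ne_zero (hmon.pow m).ne_zero hne
  have hdP : P.natDegree = m + F.natDegree := by
    rw [hP, (hmon.pow m).natDegree_mul' hne, hdeg1]
  rcases Nat.lt_or_ge q i with h1 | h1
  · -- `q < i`
    have h2 : (X : K[X]) ^ (q + 1) ∣ P := by
      rw [Polynomial.X_pow_dvd_iff]
      intro c hc'
      exact hc c (by omega) (by omega)
    have h3 : (X : K[X]) ^ (q + 1) ∣ F := by
      rw [hP] at h2
      exact (IsCoprime.pow hco).dvd_of_dvd_mul_left h2
    have h4 := Polynomial.natDegree_le_of_dvd h3 hne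
    rw [Polynomial.natDegree_X_pow] at h4
    omega
  · rcases Nat.lt_or_ge b i with h2 | h2
    · -- `b < i`
      have h3 := hc P.natDegree (by omega) (by omega)
      rw [Polynomial.coeff_natDegree] at h3
      exact hP0 (Polynomial.leadingCoeff_eq_zero.1 h3)
    · -- the derivative
      obtain ⟨s, hs⟩ : ∃ s, s = q - i := ⟨_, rfl⟩
      let A : K[X] := ∑ c ∈ Finset.range s, C (P.coeff c) * X ^ c
      have hAco : ∀ c, A.coeff c = if c < s then P.coeff c else 0 := by
        intro c
        show (∑ c' ∈ Finset.range s, C (P.coeff c') * X ^ c').coeff c = _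
        rw [Polynomial.finsetSum_coeff]
        simp only [Polynomial.coeff_C_mul_X_pow]
        split_ifs with h3
        · rw [Finset.sum_eq_single c]
          · rw [if_pos rfl]
          · intro b _ hb
            rw [if_neg (Ne.symm hb)]
          · intro h4
            exact absurd (Finset.mem_range.2 h3) h4
        · refine Finset.sum_eq_zero fun c' hc' => ?_
          rw [Finset.mem_range] at hc'
          rw [if_neg (by omega)]
      have hdiv : (X : K[X]) ^ (q + 1) ∣ P - A := by
        rw [Polynomial.X_pow_dvd_iff]
        intro c hc'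
        rw [Polynomial.coeff_sub, hAco]
        split_ifs with h3
        · rw [sub_self]
        · rw [hc c (by omega) (by omega), sub_zero]
      have hdA : derivative^[s] A = 0 := by
        ext c
        rw [Polynomial.coeff_iterate_derivative, hAco, if_neg (by omega), smul_zero,
          Polynomial.coeff_zero]
      have h3 : (X : K[X]) ^ (i + 1) ∣ derivative^[s] P := by
        have h4 := Polynomial.pow_sub_dvd_iterate_derivative_of_pow_dvd s hdiv
        rw [Polynomial.iterate_derivative_sub, hdA, sub_zero,
          show q + 1 - s = i + 1 by omega] at h4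
        exact h4
      have h4 : (1 + X : K[X]) ^ (b - i) ∣ derivative^[s] P := by
        have h5 : (1 + X : K[X]) ^ m ∣ P := ⟨F, hP⟩
        have h6 := Polynomial.pow_sub_dvd_iterate_derivative_of_pow_dvd s h5
        rw [show m - s = b - i by omega] at h6
        exact h6
      have h5 : (X : K[X]) ^ (i + 1) * (1 + X) ^ (b - i) ∣ derivative^[s] P :=
        (IsCoprime.pow hco).mul_dvd h3 h4
      have h6 : derivative^[s] P = 0 := by
        by_contra h7
        have h8 := Polynomial.natDegree_le_of_dvd h5 h7
        have h9 : ((X : K[X]) ^ (i + 1) * (1 + X) ^ (b - i)).natDegree = b + 1 := by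
          rw [mul_comm, (hmon.pow _).natDegree_mul' (pow_ne_zero _ X_ne_zero),
            hmon.natDegree_pow, Polynomial.natDegree_X_pow, add_comm (1 : K[X]) X]
          have : (X + 1 : K[X]).natDegree = 1 := Polynomial.natDegree_X_add_C 1
          rw [this]
          omega
        have h10 := Polynomial.natDegree_iterate_derivative P s
        omega
      have h7 : P.coeff P.natDegree = 0 := by
        have h8 := congrArg (fun p => p.coeff (P.natDegree - s)) h6
        beta_reduce at h8
        rw [Polynomial.coeff_iterate_derivative, Polynomial.coeff_zero,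
          show P.natDegree - s + s = P.natDegree by omega, nsmul_eq_mul, mul_eq_zero] at h8
        rcases h8 with h8 | h8
        · exfalso
          have h9 : P.natDegree.descFactorial s = 0 := by exact_mod_cast h8
          rw [Nat.descFactorial_eq_zero_iff_lt] at h9
          omega
        · exact h8
      rw [Polynomial.coeff_natDegree] at h7
      exact hP0 (Polynomial.leadingCoeff_eq_zero.1 h7)

end Pool.Agent.H64.LS
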