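import Pool.Agent.H64.LS.Scal

/-!
# Two commuting nilpotent operators
-/

set_option autoImplicit false

open Polynomial

namespace Pool.Agent.H64.LS

variable {K : Type} [Field K] [CharZero K]

/-- the polynomials of the surjectivity -/
theorem exists_poly {q b i : ℕ} (hm : 2 * i ≤ q + b) {a₀ : ℕ} (ha : a₀ ≤ q) (ha1 : q ≤ a₀ + i)
    (ha2 : a₀ + i ≤ q + b) :
    ∃ F : K[X], (∀ a, F.coeff a ≠ 0 → a ≤ q ∧ a ≤ i ∧ i ≤ a + b) ∧
      ∀ c ≤ q, q ≤ c + i →
        ((1 + X) ^ (q + b - 2 * i) * F).coeff c = if c = a₀ then 1 else 0 := by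
  obtain ⟨m, hmdef⟩ : ∃ m, m = q + b - 2 * i := ⟨_, rfl⟩
  let S : Finset ℕ := (Finset.range (q + 1)).filter fun a => a ≤ i ∧ i ≤ a + b
  let S' : Finset ℕ := (Finset.range (q + 1)).filter fun c => q ≤ c + i ∧ c + i ≤ q + b
  have hcard : S.card = S'.card := by
    refine Finset.card_bij (fun a _ => q - a) ?_ ?_ ?_
    · intro a ha
      simp only [S, S', Finset.mem_filter, Finset.mem_range] at ha ⊢
      omega
    · intro a ha a' ha' h
      simp only [S, Finset.mem_filter, Finset.mem_range] at ha ha'
      omega
    · intro c hc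
      simp only [S', Finset.mem_filter, Finset.mem_range] at hc
      refine ⟨q - c, ?_, by omega⟩
      simp only [S, Finset.mem_filter, Finset.mem_range]
      omega
  let P : (S → K) →ₗ[K] K[X] :=
    { toFun := fun z => ∑ a : S, C (z a) * X ^ (a : ℕ)
      map_add' := fun x y => by
        rw [← Finset.sum_add_distrib]
        exact Finset.sum_congr rfl fun a _ => by rw [Pi.add_apply, C_add, add_mul]
      map_smul' := fun c x => by
        rw [RingHom.id_apply, Finset.smul_sum]
        exact Finset.sum_congr rfl fun a _ => by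
          rw [Pi.smul_apply, smul_eq_mul, C_mul, mul_assoc, ← Polynomial.C_mul'] }
  have hPco : ∀ z (a : ℕ), (P z).coeff a = if h : a ∈ S then z ⟨a, h⟩ else 0 := by
    intro z a
    show (∑ a' : S, C (z a') * X ^ (a' : ℕ)).coeff a = _
    rw [Polynomial.finsetSum_coeff]
    simp only [Polynomial.coeff_C_mul_X_pow]
    split_ifs with h
    · rw [Finset.sum_eq_single ⟨a, h⟩]
      · rw [if_pos rfl]
      · intro b _ hb
        rw [if_neg]
        intro h2
        exact hb (Subtype.ext h2.symm)
      · intro h2
        exact absurd (Finset.mem_univ _) h2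
    · refine Finset.sum_eq_zero fun a' _ => ?_
      rw [if_neg]
      intro h2
      exact h (h2 ▸ a'.2)
  have hPsupp : ∀ z (a : ℕ), (P z).coeff a ≠ 0 → a ≤ q ∧ a ≤ i ∧ i ≤ a + b := by
    intro z a h
    rw [hPco] at h
    by_cases h2 : a ∈ S
    · simp only [S, Finset.mem_filter, Finset.mem_range] at h2
      omega
    · rw [dif_neg h2] at h
      exact absurd rfl h
  let Ψ : (S → K) →ₗ[K] (S' → K) :=
    { toFun := fun z c => ((1 + X) ^ m * P z).coeff c
      map_add' := fun x y => by
        ext c
        rw [map_add, mul_add, Polynomial.coeff_add, Pi.add_apply]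
      map_smul' := fun r x => by
        ext c
        rw [map_smul, mul_smul_comm, Polynomial.coeff_smul, RingHom.id_apply, Pi.smul_apply] }
  have hinj : Function.Injective Ψ := by
    rw [injective_iff_map_eq_zero]
    intro z hz
    have h1 : P z = 0 := by
      refine scal hm (hPsupp z) fun c hc hc2 => ?_
      rw [← hmdef]
      by_cases h2 : c + i ≤ q + b
      · have h3 : c ∈ S' := by
          simp only [S', Finset.mem_filter, Finset.mem_range]
          omega
        exact congrFun hz ⟨c, h3⟩
      · refine Polynomial.coeff_eq_zero_of_natDegree_lt ?_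
        refine lt_of_le_of_lt Polynomial.natDegree_mul_le ?_
        have h3 : ((1 + X : K[X]) ^ m).natDegree ≤ m := by
          refine Polynomial.natDegree_pow_le.trans ?_
          have : (1 + X : K[X]).natDegree ≤ 1 := by
            rw [add_comm]
            exact (Polynomial.natDegree_X_add_C (1 : K)).le
          nlinarith
        have h4 : (P z).natDegree ≤ i := by
          rw [Polynomial.natDegree_le_iff_coeff_eq_zero]
          intro a ha
          by_contra h5
          have := hPsupp z a h5
          omega
        omega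
    ext a
    have h2 := hPco z a
    rw [h1, dif_pos a.2, Polynomial.coeff_zero] at h2
    exact h2.symm
  have hsurj : Function.Surjective Ψ := by
    refine (LinearMap.injective_iff_surjective_of_finrank_eq_finrank ?_).1 hinj
    rw [Module.finrank_fintype_fun_eq_card, Module.finrank_fintype_fun_eq_card, Fintype.card_coe,
      Fintype.card_coe, hcard]
  obtain ⟨z, hz⟩ := hsurj fun c => if (c : ℕ) = a₀ then 1 else 0
  refine ⟨P z, hPsupp z, fun c hc hc2 => ?_⟩
  rw [← hmdef]
  by_cases h2 : c + i ≤ q + b
  · have h3 : c ∈ S' := by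
      simp only [S', Finset.mem_filter, Finset.mem_range]
      omega
    exact congrFun hz ⟨c, h3⟩
  · rw [if_neg (by omega)]
    refine Polynomial.coeff_eq_zero_of_natDegree_lt ?_
    refine lt_of_le_of_lt Polynomial.natDegree_mul_le ?_
    have h3 : ((1 + X : K[X]) ^ m).natDegree ≤ m := by
      refine Polynomial.natDegree_pow_le.trans ?_
      have : (1 + X : K[X]).natDegree ≤ 1 := by
        rw [add_comm]
        exact (Polynomial.natDegree_X_add_C (1 : K)).le
      nlinarith
    have h4 : (P z).natDegree ≤ i := by
      rw [Polynomial.natDegree_le_iff_coeff_eq_zero]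
      intro a ha
      by_contra h5
      have := hPsupp z a h5
      omega
    omega

variable {V : Type} [AddCommGroup V] [Module K V]

/-- the value of the homogeneous polynomial of degree `D` at `N`, `M` -/
noncomputable def hom (M N : Module.End K V) (z : V) (P : K[X]) (D : ℕ) : V :=
  ∑ c ∈ Finset.range (D + 1), P.coeff c • (N ^ c * M ^ (D - c)) z

theorem hom_step {M N : Module.End K V} (hMN : Commute M N) (z : V) {P : K[X]} {D : ℕ}
    (hP : P.coeff (D + 1) = 0) :
    (M + N) (hom M N z P D) = hom M N z ((1 + X) * P) (D + 1) := by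
  unfold hom
  have h1 : ∀ c, (((1 : K[X]) + X) * P).coeff c = P.coeff c + (X * P).coeff c := by
    intro c
    rw [add_mul, one_mul, Polynomial.coeff_add]
  simp only [h1, add_smul, Finset.sum_add_distrib]
  rw [Finset.sum_range_succ (fun c => P.coeff c • (N ^ c * M ^ (D + 1 - c)) z) (D + 1), hP,
    zero_smul, add_zero, Finset.sum_range_succ' (fun c => ((X * P : K[X])).coeff c •
      (N ^ c * M ^ (D + 1 - c)) z) (D + 1), Polynomial.coeff_X_mul_zero, zero_smul, add_zero,
    LinearMap.add_apply, map_sum, map_sum]
  congr 1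
  · refine Finset.sum_congr rfl fun c hc => ?_
    rw [Finset.mem_range] at hc
    rw [map_smul, ← Module.End.mul_apply, ← mul_assoc, (hMN.pow_right c).eq, mul_assoc, ← pow_succ',
      show D - c + 1 = D + 1 - c by omega]
  · refine Finset.sum_congr rfl fun c hc => ?_
    rw [Finset.mem_range] at hc
    rw [map_smul, ← Module.End.mul_apply, ← mul_assoc, ← pow_succ', Polynomial.coeff_X_mul,
      show D + 1 - (c + 1) = D - c by omega]

theorem hom_pow {M N : Module.End K V} (hMN : Commute M N) (z : V) (m : ℕ) :
    ∀ {P : K[X]} {D : ℕ}, (∀ c, D < c → P.coeff c = 0) →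
    ((M + N) ^ m) (hom M N z P D) = hom M N z ((1 + X) ^ m * P) (D + m) := by
  induction m with
  | zero =>
    intro P D _
    rw [pow_zero, pow_zero, one_mul, add_zero, Module.End.one_apply]
  | succ m ih =>
    intro P D hP
    rw [pow_succ, Module.End.mul_apply, hom_step hMN z (hP _ (Nat.lt_succ_self D)), ih, pow_succ,
      mul_assoc, show D + 1 + m = D + (m + 1) by ring]
    intro c hc
    rw [add_mul, one_mul, Polynomial.coeff_add, hP c (by omega), zero_add]
    obtain ⟨c, rfl⟩ : ∃ c', c = c' + 1 := ⟨c - 1, by omega⟩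
    rw [Polynomial.coeff_X_mul]
    exact hP c (by omega)

/-- one string -/
theorem string_surj {M N : Module.End K V} (hMN : Commute M N) {z : V} {q b i : ℕ}
    (hN : (N ^ (q + 1)) z = 0) (hM : (M ^ (b + 1)) z = 0) (hm : 2 * i ≤ q + b) {a u : ℕ}
    (hau : a + u + i = q + b) :
    ∃ x ∈ Submodule.span K {v | ∃ c ≤ i, v = (N ^ c * M ^ (i - c)) z},
      ((M + N) ^ (q + b - 2 * i)) x = (N ^ a * M ^ u) z := by
  have hNz : ∀ c, q < c → ∀ e, (N ^ c * M ^ e) z = 0 := by
    intro c hc e
    obtain ⟨c, rfl⟩ : ∃ c', c = c' + (q + 1) := ⟨c - (q + 1), by omega⟩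
    rw [pow_add, mul_assoc, ((hMN.pow_left e).pow_right (q + 1)).symm.eq, ← mul_assoc,
      Module.End.mul_apply, Module.End.mul_apply, hN, map_zero, map_zero]
  have hMz : ∀ e, b < e → ∀ c, (N ^ c * M ^ e) z = 0 := by
    intro e he c
    obtain ⟨e, rfl⟩ : ∃ e', e = e' + (b + 1) := ⟨e - (b + 1), by omega⟩
    rw [pow_add, Module.End.mul_apply, Module.End.mul_apply, hM, map_zero, map_zero]
  by_cases ha : a ≤ q
  · by_cases hu : u ≤ b
    · obtain ⟨F, hF1, hF2⟩ := exists_poly (K := K) hm ha (by omega) (by omega)
      refine ⟨hom M N z F i, ?_, ?_⟩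
      · unfold hom
        refine Submodule.sum_mem _ fun c hc => Submodule.smul_mem _ _ (Submodule.subset_span ?_)
        rw [Finset.mem_range] at hc
        exact ⟨c, by omega, rfl⟩
      · rw [hom_pow hMN z _ (fun c hc => by
          by_contra h
          have := hF1 c h
          omega)]
        unfold hom
        rw [Finset.sum_eq_single a]
        · rw [hF2 a ha (by omega), if_pos rfl, one_smul,
            show i + (q + b - 2 * i) - a = u by omega]
        · intro c hc hca
          rw [Finset.mem_range] at hc
          by_cases h1 : c ≤ q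
          · by_cases h2 : q ≤ c + i
            · rw [hF2 c h1 h2, if_neg hca, zero_smul]
            · rw [hMz _ (by omega), smul_zero]
          · rw [hNz c (by omega), smul_zero]
        · intro h
          rw [Finset.mem_range] at h
          omega
    · exact ⟨0, Submodule.zero_mem _, by rw [map_zero, hMz u (by omega)]⟩
  · exact ⟨0, Submodule.zero_mem _, by rw [map_zero, hNz a (by omega)]⟩

end Pool.Agent.H64.LS
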